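import Mathlib
import Pool.Graph.R_pool_sql_team_seeded_63374d34.N792.QStm
import Pool.Graph.R_pool_sql_team_seeded_63374d34.N138.Gap.G2
import Pool.Agent.H568.C2
import Pool.Agent.H568.Mn3

/-!
Project LB: lower bounds for primes at exponent 5/8. Definitions, and the statements of the lemmas.
-/

set_option autoImplicit false

namespace Pool.Agent.H568.LB

open Finset Filter Topology Pool.Agent.N792 Pool.Agent.N791.U Pool.Agent.N792.RX5
open Pool.Agent.H469R2.NK (e)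
open ArithmeticFunction (moebius)

/-! ### Part 1: the exponential sums -/

/-- TASK BLK.  Blocks of frequencies, by the double large sieve.
Proof. Model: `bsj` in N792/QB.lean (same proof, with `J = K`). Put `θ = 1 / √a`, `Y = θ √2 √K`. Split `R` into the classes
`r ≡ ρ mod 4 a` (at most `4 a` classes, triangle inequality). For one class let `RR` be the set of the pairs `(h, r)`,
`h ∈ [H, 2 H)`, so that `RR ⊆ PP a 1 H J 0 ρ`. Points `x_(h,r) = h √r`, `y_s = θ √s ≤ Y`, `x 4 Y ≤ 16 θ H √(J K) < J'` with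
`J' = ⌊16 θ H √(J K)⌋ + 1`. Spacing: `|h √r - h' √r'| ≤ 1 / (4 Y)` gives `|h² r - h'² r'| ≤ 4 H √2 √J / (4 Y) = H √a √(J / K)
≤ 2 a H` since `J ≤ K`; so the number of the close pairs is `≤ 8 (H J / a + H³)` by `Q1` with `n = 1` (and `K` there is `J` here).
Grid sum: `grid_sqrt` (QB.lean) with `q = 1`: `≤ J' * (3 K (4 J' + 128 K))`. Then `Pool.Agent.H373R2.T4.dls` gives
`‖..‖² ≤ 25 * (8 (H J + H³)) * (3 K (4 J' + 128 K)) ≤ C (H J + H³) (H K √(J K) + K²)`, and `K √(J K) ≤ m² x^(2+ε)`,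
`K² ≤ m² x^(2+2ε)`, `J ≤ √(J K) ≤ m x`. So it is `≤ C' (H² x^(3+2ε) + H⁴ x^(2+2ε))`; take the square root. -/
def S_BLK : Prop := Q1 → ∀ a m : ℕ, 1 ≤ a → 1 ≤ m → ∃ C2 : ℝ, 0 < C2 ∧ ∀ ε : ℝ, 0 ≤ ε → ∀ x J K : ℕ, 1 ≤ x → 4 * a ≤ J → J ≤ K →
  (J : ℝ) * K ≤ m * (x : ℝ) ^ 2 → (K : ℝ) ≤ m * (x : ℝ) ^ (1 + ε) → ∀ R ⊆ Ioc J (2 * J), ∀ S ⊆ Ioc K (2 * K),
  ∀ (H : ℕ) (ω : ℕ → ℂ), 1 ≤ H → H ≤ J → (∀ h, ‖ω h‖ ≤ 1) →
  ‖∑ h ∈ Ico H (2 * H), ω h * ∑ r ∈ R, ∑ s ∈ S, e (h / √(a : ℝ) * (√(r : ℝ) * √(s : ℝ)))‖ ≤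
    C2 * ((x : ℝ) ^ (3 / 2 + ε) * H + (x : ℝ) ^ (1 + ε) * (H : ℝ) ^ 2)

/-- TASK TRB.  The sum over the triangle function.
Proof. As `Gap.tri_block` (N138/Gap/G2.lean), but with `Q4` (N792/QStm.lean) instead of `tri_sum`. By symmetry (`sum_comm`, and the
function depends on `r * s` only) let `J ≤ K`. Apply `Q4` with the index set `R ×ˢ S`, `w = 1`, `θ i = √(i.1 * i.2 / a) - β`, `n = 1`,
`K := J`, `A1 = 2 C x^(3/2+ε)` (from `Gap.exp_bound`: `‖..‖ ≤ C x^(3/2+ε) √h`, and `√h ≤ 2 / √h` for `h ≤ 2`; that lemma needs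
`x^(1-ε) ≤ 4 K`), `A2 = C x^(3/2+ε)`, `A3 = C x^(1+ε)` (from `S_BLK`; the factor `e(-h β)` goes into `ω`), `A4 = J K ≤ m x²`.
Then `A4 / (δ J) ≤ m x² * 4 / (δ x^(1-ε)) = 4 m x^(1+ε) / δ` and `1 + log J ≤ C (1 + log x)`. -/
def S_TRB : Prop := ∀ a m : ℕ, 1 ≤ a → 1 ≤ m → ∃ C2 : ℝ, 0 < C2 ∧ ∀ ε : ℝ, 0 ≤ ε → ε ≤ 1 → ∀ x J K : ℕ, 1 ≤ x →
  4 * a ≤ J → 4 * a ≤ K → (J : ℝ) * K ≤ m * (x : ℝ) ^ 2 → (J : ℝ) ≤ m * (x : ℝ) ^ (1 + ε) → (K : ℝ) ≤ m * (x : ℝ) ^ (1 + ε) →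
  (x : ℝ) ^ (1 - ε) ≤ 4 * J → (x : ℝ) ^ (1 - ε) ≤ 4 * K → ∀ R ⊆ Ioc J (2 * J), ∀ S ⊆ Ioc K (2 * K), ∀ β δ : ℝ, 0 < δ → δ ≤ 1 / 2 →
  ∑ r ∈ R, ∑ s ∈ S, tri δ (√(((r * s : ℕ) : ℝ) / a) - β) ≤
    δ * (#R * #S) + C2 * ((x : ℝ) ^ (3 / 2 + ε) + (x : ℝ) ^ (1 + ε) * (1 + Real.log x) / δ)

/-- the values with a divisor near `x`, `C ≥ x^(3/5)`, `b² ≤ Λ C` -/
def X3D (a : ℤ) (Λ : ℝ) (R : ℕ) : Prop := ∃ C3 : ℝ, 0 < C3 ∧ ∀ η ε : ℝ, 0 < η → η ≤ 1 / 10 → 0 < ε → ε ≤ 1 / 100 →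
    ∃ x0 : ℕ, ∀ x : ℕ, x0 ≤ x → ∀ b : ℤ,
    ∀ x1 C z y : ℕ, (b : ℝ) ^ 2 ≤ Λ * C → x1 < x → x ≤ R * x1 → (x : ℝ) ^ (3 / 5 : ℝ) ≤ C → C ≤ x →
    (x : ℝ) ^ η ≤ z → (x : ℝ) ^ (1 - ε) ≤ y →
    ∑ c ∈ Icc 1 C, Lc a b x1 x c (gp z y) ≤ C3 * (ε / η ^ 2) * (C * x / Real.log x) ∧
    Ls a b x1 x (gp z y) ≤ C3 * (ε / η ^ 2) * (x / Real.log x)

/-- TASK X3D.  Proof: copy `Pool/Agent/H568/X3W.lean` (theorem `x3W`) and replace `tri_block` by `S_TRB` (with `a.toNat` for `a`).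
The error of a block is `2 C2 (x^(3/2+ε) + x^(1+ε) (1 + log x) / (2 δ))` with `δ = c0 C / x ≥ x^(-2/5)`, so
`≤ 2 C2 (x^(3/2+ε) + x^(7/5+ε) (1 + log x)) ≤ 8 C2 x^(3/2+ε) log x`, there are `≤ (4 ε log x)²` blocks, and
`128 C2 x^(3/2+ε) log⁴ x ≤ x^(8/5) ≤ C x` for large `x` (`ev_pow (3/2 + ε) (8/5) (128 * C2) 4`, as `ε ≤ 1/100`). The conditions
`4 a ≤ 2^i` follow from `x^(1-ε) ≤ 4 * 2^i` for large `x`. -/
def S_X3D : Prop := Q1 → Q4 → ∀ (a : ℤ) (Λ : ℝ) (R : ℕ), 0 < a → 1 ≤ Λ → X3D a Λ R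

/-! ### Part 2: the sieve functions -/

/-- the pair of primes `q < p` is dropped -/
def dr (U V q p : ℕ) : Prop := q < p ∧ q * p ≤ U ∧ V < q * q * p

instance (U V q p : ℕ) : Decidable (dr U V q p) := by unfold dr; infer_instance

open Classical in
/-- `μ(d)`, but `0` if the prime factors `> Q` of `d` are a dropped pair -/
noncomputable def g5 (Q U V d : ℕ) : ℝ := if ∃ q p, bigp Q d = {q, p} ∧ dr U V q p then 0 else (moebius d : ℝ)

/-- `μ` on the `Q`-rough numbers -/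
noncomputable def mur (Q k : ℕ) : ℝ := moebius k * rg Q k

/-- the number of the dropped pairs of prime factors -/
def Dn (U V N : ℕ) : ℕ := #((N.primeFactors ×ˢ N.primeFactors).filter (fun t => dr U V t.1 t.2))

/-- the number of the pairs of prime factors with product `≤ U` -/
def Pn (U N : ℕ) : ℕ := #((N.primeFactors ×ˢ N.primeFactors).filter (fun t => t.1 < t.2 ∧ t.1 * t.2 ≤ U))

/-- the type II functions -/
noncomputable def l5 (Q U V1 : ℕ) : List (ℝ × (ℕ → ℝ) × ℕ × (ℕ → ℝ)) :=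
  [(1, mur Q, U, rg Q), (2, pi0, V1, pi2 Q), (-2, pi2 Q, U, pin Q 3)]

/-- the combination of type I and type II functions -/
noncomputable def H5 (z U y Q V V1 K : ℕ) (zs : ℕ → ℕ) (N : ℕ) : ℝ := Sv (g5 Q U V) z U y K zs N + Lt z y (l5 Q U V1) N

open Classical in
/-- what is lost -/
noncomputable def W5 (Q U V V1 N : ℕ) : ℝ :=
  if Squarefree N ∧ Rough Q N ∧ 3 ≤ w N then
    2 * pi3 Q V1 N + Dn U V N + (if w N = 5 then 14 - 2 * (Pn U N : ℝ) else 0) + (if w N = 7 then 20 else 0)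
  else 0

/-- TASK G5.  The basic properties of `g5` and `mur`. Models: `g2_abs`, `g2_sq`, `g2_mul`, `SL_g2` (C2.lean), `Ok_rg`, `SL_rg` (La1.lean),
closure properties of `SL` (Sl.lean).
`SL`: let `P` be a prime, `P ∤ e`, `B = bigp Q e` (use `bigp_mul`). If `P ≤ Q` then `g5 (e P) = - g5 e`. If `P > Q` and `#B ≠ 1`:
`g5 (e P) = - μ e`. If `B = {s}` and `P > Q` then `g5 (e P) = - μ(e) + μ(e) [{s, P} dropped]`, and this indicator function is the sum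
of the indicator functions of two disjoint intervals of primes `P`: `s < P`, `s P ≤ U`, `V < s s P`; and `P < s`, `P s ≤ U`,
`V < P P s` (an interval, as both `P ↦ P P s` and `P ↦ P s` are monotone; take the thresholds with `Nat.find`/`Nat.sqrt` or `U / s`,
`V / (s s)`). Each interval needs two steps.  `mur`: `mur (m P) = - μ(m) rg Q m [Q < P]` for `P ∤ m`. -/
def S_G5 : Prop := (∀ Q U V d, |g5 Q U V d| ≤ 1) ∧ (∀ Q U V d, g5 Q U V d ≠ 0 → Squarefree d) ∧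
  (∀ Q U V d q : ℕ, q.Prime → q ≤ Q → ¬ q ∣ d → g5 Q U V (d * q) = - g5 Q U V d) ∧
  (∀ Q U V m, m ≠ 0 → SL m 12 (fun P => g5 Q U V (m * P))) ∧ (∀ Q, Ok 2 (mur Q))

/-- TASK SVQ.  The sieve part at a `Q`-rough number.
Proof. `Sv_case2` (Sv.lean): `Sv g = ∑_{j ∣ N, j ≤ U} g(j)`. Here `bigp Q j = j.primeFactors` (`bigp_rough` in C3.lean), and
`g5 j = μ(j)` except for the `j = q p` with `dr U V q p`, where `μ(j) = 1`; these `j` correspond to the pairs counted in `Dn`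
(`q * p ∣ N`, `q * p ≤ U`). -/
def S_SVQ : Prop := ∀ (z U y Q V K N : ℕ) (zs : ℕ → ℕ), zs K = Q → (∀ i < K, zs i ≤ zs (i + 1)) → Rough z N → Squarefree N → Rough Q N →
  Sv (g5 Q U V) z U y K zs N = ∑ j ∈ N.divisors.filter (fun j => j ≤ U), (moebius j : ℝ) - Dn U V N

/-- TASK MU.  The sum of `μ(j)` over the divisors `j ≤ y`, for a number `N > y²` without a divisor `j` with `y ≤ j`, `y ≤ N/j`.
Proof. `near`, `inv`, `split2`, `c1`, `c2` of N792/RX5.lean. Exactly one of `j`, `N / j` is `≤ y`. Let `A_k` be the number of the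
divisors `j ≤ y` with `w j = k` (`w` = number of prime factors); `inv`: `A_k = C(r,k) - A_(r-k)` for `r = w N`; `A_0 = 1`.
(1) `r` even: the sum over all divisors of `μ` is `0`, and `j ↦ N/j` shows that it is twice the sum over `j ≤ y`. (2) `r = 3`:
`1 - A_1 + A_2`, `A_2 = 3 - A_1`. (3) `r = 5`, `A_1 = 5`: `1 - 5 + A_2 - A_3 + A_4`, `A_3 = 10 - A_2`, `A_4 = 0`, and `A_2 = Pn y N`.
(4) `r = 7`, `A_k` full for `k ≤ 3`: `1 - 7 + 21 - 35 = - 20`. (5) `r = 1`: `N > y` is a prime. In (3) and (4): a divisor `j` with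
`w j ≤ r - 4` has `N / j > Q⁴`, so `j < N / Q⁴ ≤ y`. -/
def S_MU : Prop := ∀ (y Q N : ℕ), 1 ≤ y → y * y < N → Squarefree N → Rough Q N → N ≤ y * Q ^ 4 → (∀ j, j ∣ N → ¬ (y ≤ j ∧ y ≤ N / j)) →
  (Even (w N) → ∑ j ∈ N.divisors.filter (fun j => j ≤ y), (moebius j : ℝ) = 0) ∧
  (w N = 3 → ∑ j ∈ N.divisors.filter (fun j => j ≤ y), (moebius j : ℝ) = 4 - 2 * #(N.primeFactors.filter (fun p => p ≤ y))) ∧
  (w N = 5 → ∑ j ∈ N.divisors.filter (fun j => j ≤ y), (moebius j : ℝ) = 2 * Pn y N - 14) ∧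
  (w N = 7 → ∑ j ∈ N.divisors.filter (fun j => j ≤ y), (moebius j : ℝ) = - 20) ∧
  (w N = 1 → ∑ j ∈ N.divisors.filter (fun j => j ≤ y), (moebius j : ℝ) = 1)

/-- TASK T2S.  The type II functions at a `Q`-rough number. Use `T2_eq` (or `T2_w` for the second and third one), `pi0_w`, `pi2_w` (RX5.lean),
`pin_w` (C2.lean), and that the divisors `j` with `w j = 2` correspond to the pairs of prime factors. -/
def S_T2S : Prop := ∀ (z U y Q V1 N : ℕ), U ≤ y → V1 ≤ y → Rough z N → Squarefree N → Rough Q N →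
  T2 z U y (mur Q) (rg Q) N = ∑ j ∈ N.divisors.filter (fun j => j ≤ y), (moebius j : ℝ) -
    ∑ j ∈ N.divisors.filter (fun j => j ≤ U), (moebius j : ℝ) ∧
  T2 z V1 y pi0 (pi2 Q) N = (if w N = 3 then (#(N.primeFactors.filter (fun p => V1 < p ∧ p ≤ y)) : ℝ) else 0) ∧
  T2 z U y (pi2 Q) (pin Q 3) N = (if w N = 5 then (Pn y N : ℝ) - Pn U N else 0)

/-- TASK A5.  For five primes there are enough dropped pairs.
Proof. Let `p1 < p2 < p3 < p4 < p5` be the primes. A pair `i < j`, `i ≥ 2`, with `p_i p_j ≤ U` is dropped if the product of the two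
primes other than `p_(i-1), p_i, p_j` is `≤ U`: then `p_(i-1) p_i p_j ≥ N / U ≥ V`, so `p_i p_i p_j > V`. Let `a` be the number of the
pairs with product `≤ U`; we may assume `a ≥ 8`. `a = 10`: all six pairs with `i ≥ 2` are dropped. `a = 9`: the pair `(4,5)` is the one
with product `> U`; dropped are `(3,5)` (the others without `p2` are `p1 p4`), `(3,4)` (`p1 p5`), `(2,5)` (`p3 p4`), `(2,4)` (`p3 p5`).
`a = 8`: `(4,5)` and `(3,5)` have product `> U`; dropped are `(3,4)` (others: `p1 p5`) and `(2,5)` (others: `p3 p4`). So there are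
`≥ 2 a - 14` dropped pairs. -/
def S_A5 : Prop := ∀ (U V N : ℕ), Squarefree N → w N = 5 → U * V ≤ N → 2 * Pn U N ≤ 14 + Dn U V N

/-- TASK NR.  A number with a prime factor `≤ Q`: model the second half of `H1_good` (C1.lean): `Sv_case1` (needs the third part of `S_G5`) and
`T2_zero` for the three type II functions. -/
def S_NR : Prop := S_G5 → ∀ (z U y Q V V1 K N : ℕ) (zs : ℕ → ℕ), 1 ≤ U → Q ≤ U → U ≤ V1 → V1 ≤ y → zs 0 = z → zs K = Q →
  (∀ i < K, zs i ≤ zs (i + 1)) → y * y < N → U * U * Q < N → Squarefree N → Rough z N → (∀ j, j ∣ N → ¬ (y ≤ j ∧ y ≤ N / j)) →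
  (∀ i < K, ∀ p q : ℕ, p.Prime → q.Prime → p ∣ N → q ∣ N → zs i < p → p ≤ zs (i + 1) → zs i < q → q ≤ zs (i + 1) → p = q) →
  ¬ Rough Q N → H5 z U y Q V V1 K zs N = 0

/-- TASK PAR.  The parameters. Model: `params10` in Pr.lean. Take `U = ⌈x^(7/8-e)⌉`, `Q = ⌈x^(1/4+e)⌉`, `V1 = ⌈x^(7/8)⌉`, `y = ⌊x^(1-ε)⌋`,
`V = ⌊c0 x² / U⌋` (so `V ≥ c0 x^(9/8+e) / 2 - 1 ≥ x^(9/8)`). `U U Q ≤ 8 x^(2-e)`; `y Q⁴ ≥ x^(2+4e-ε) / 2` and `ε ≤ e`; `Q⁸ ≥ x^(2+8e)`;
`V1 V1 Q ≥ x^(2+e)`. -/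
def S_PAR : Prop := ∀ (e ε c0 A : ℝ), 0 < e → e ≤ 1 / 20000 → 0 < ε → ε ≤ e → 0 < c0 → 1 ≤ A →
    ∀ᶠ x : ℕ in atTop, ∃ U y Q V V1 : ℕ, 1 ≤ U ∧ Q ≤ U ∧ U ≤ V1 ∧ V1 ≤ y ∧ (y : ℝ) ≤ (x : ℝ) ^ (1 - ε) ∧
      (x : ℝ) ^ (1 - 2 * ε) ≤ y ∧ (x : ℝ) ^ (7 / 8 - e) ≤ U ∧ (U : ℝ) ≤ (x : ℝ) ^ (7 / 8 : ℝ) ∧
      (x : ℝ) ^ (1 / 4 : ℝ) ≤ Q ∧ (Q : ℝ) ≤ (x : ℝ) ^ (9 / 20 : ℝ) ∧ (V1 : ℝ) ≤ (x : ℝ) ^ (7 / 8 + 1 / 10000 : ℝ) ∧
      (x : ℝ) ^ (9 / 8 : ℝ) ≤ V ∧ ((U * V : ℕ) : ℝ) ≤ c0 * x ^ 2 ∧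
      ((Q * Q : ℕ) : ℝ) ≤ (x : ℝ) ^ (9 / 10 : ℝ) ∧ ((y * y : ℕ) : ℝ) ≤ c0 * x ^ 2 ∧ A * (x : ℝ) ^ 2 < ((Q ^ 8 : ℕ) : ℝ) ∧
      ((U * U * Q : ℕ) : ℝ) ≤ c0 * x ^ 2 ∧ A * (x : ℝ) ^ 2 ≤ ((V1 * V1 * Q : ℕ) : ℝ) ∧ A * (x : ℝ) ^ 2 ≤ ((y * Q ^ 4 : ℕ) : ℝ)

/-! ### Part 3: the main terms -/

/-- TASK ML.  `main_le` (Mn1.lean) with `9/5` instead of `169/100`. Proof: copy the proof; `inner` (N792/RX4.lean) is then applied with
`L := L / 4` (as `3/5 * (L/4) = 3/20 L ≤ 19999/10000 L - 9/5 L`), so the constants in `fin_mn` change (`16 C / (L/4)^4 = 4096 C / L^4`). -/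
def S_ML : Prop := ∀ (a : ℤ), 0 < a → ∀ (Λ : ℝ), 1 ≤ Λ → ∀ (R : ℕ) (τ η : ℝ), 0 ≤ τ → 0 < η →
    ∀ᶠ x : ℕ in atTop, ∀ b : ℤ, (b : ℝ) ^ 2 ≤ Λ * x → ∀ x1 x2 : ℕ, x1 < x2 → x2 ≤ x → x ≤ R * x1 →
    ∀ (ι : Type) (S : Finset ι) (wt : ι → ℝ) (m : ι → ℕ),
    (∀ t ∈ S, 0 ≤ wt t ∧ 0 < m t ∧ Real.log (m t) ≤ 9 / 5 * Real.log x) →
    ∑ t ∈ S, wt t / (m t * (19999 / 10000 * Real.log x - Real.log (m t))) ≤ τ / Real.log x →
    ∀ W : ℕ → ℝ, (∀ N : ℕ, 19999 / 10000 * Real.log x ≤ Real.log N → Real.log N ≤ 20001 / 10000 * Real.log x → 0 < N →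
      W N ≤ ∑ t ∈ S, wt t * (if m t ∣ N then pi0 (N / m t) else 0)) →
    Ls a b x1 x2 W ≤ τ * (((x2 : ℝ) - x1) / Real.log x) + η * (x / Real.log x)

/-- sums over the cells of a grid, from the smallest prime on; the cell of the largest prime is the head of the list -/
def cs (a0 a1 : ℕ) (F : List ℕ → ℕ) : ℕ → List ℕ → ℕ
  | 0, l => F l
  | k + 1, l => ∑ c ∈ Ioc a0 a1, lamN c * cs a0 a1 F k (c :: l)

/-- TASK TUP.  Sums over tuples of primes, in terms of the cells. Models: `grid1`, `grid2`, .. (Mn2.lean), `pair_T`, `trip_T`, .. (Mn3.lean).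
Proof. Let `P = PQ x Q u`; for `p ∈ P`: `a0 < cidx x m p ≤ a1` (as `PQ_idx` in Mn3.lean, with `4 a0 = m` and `1/4`). Define
`ps G : ℕ → List ℕ → ℝ`, `ps G 0 t = G t`, `ps G (k+1) t = ∑ p ∈ P, (1 / p) * ps G k (p :: t)`. By `grid1` and induction over `k`:
`ps (fun t => F (t.map (cidx x m))) k t ≤ cs a0 a1 F k (t.map (cidx x m)) / 10^(8 k)` for all `F : List ℕ → ℕ` (for the fixed `F` of the
statement, all `x` large: `grid1` is eventual and uniform in `f`). The sum over `S` is at most `ps` of the function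
`t ↦ W (cells) * gN m (sum of the cells) / 10^6 / log x`, because the lists `t ∈ S` are different lists of length `k` with entries in `P`,
`wt t / (t.prod (..)) ≤ (1 / t.prod) W (cells) gN m (sum) / 10^6 / log x` by `gN_ge` (if `W (cells) = 0` then `wt t = 0`), `log t.prod =
∑ log p ≤ (∑ cells) / m * log x`, and all terms are nonnegative. -/
def S_TUP : Prop := ∀ (m a0 a1 k : ℕ) (u : ℝ) (W : List ℕ → ℕ), 0 < m → 1 ≤ a0 → 4 * a0 = m → u * m ≤ a1 →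
  (∀ l : List ℕ, l.length = k → W l ≠ 0 → 10000 * l.sum < 19999 * m) →
  ∀ᶠ x : ℕ in atTop, ∀ Q : ℕ, (x : ℝ) ^ (1 / 4 : ℝ) ≤ Q → ∀ (S : Finset (List ℕ)) (wt : List ℕ → ℝ),
    (∀ t ∈ S, t.length = k ∧ (∀ p ∈ t, p ∈ PQ x Q u) ∧ 0 ≤ wt t ∧ wt t ≤ W (t.map (cidx x m))) →
    ∑ t ∈ S, wt t / ((t.prod : ℕ) * (19999 / 10000 * Real.log x - Real.log (t.prod : ℕ))) ≤
      (cs a0 a1 (fun l => W l * gN m l.sum) k [] : ℝ) / 10 ^ (8 * k + 6) / Real.log x

/-- TASK LST.  The combination of `S_ML` and `S_TUP`.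
Proof. Let `S` be the finite set of all lists `t` of length `k` with entries in `P = PQ x Q u` and `log t.prod ≤ 9/5 log x` (define it by
recursion, or as an image of `Fin k → ℕ` (`Fintype.piFinset`) under `List.ofFn`), `wt t = W (t.map (cidx x m))`, `m t = t.prod`.
`S_TUP` gives the condition of `S_ML` with `τ`, and the hypothesis on `F` gives the pointwise bound: one term of the sum is `≥ F N`
(if `F N ≤ 0` then it is trivial, all terms are `≥ 0`); `pi0 (prime) = 1` (`pi0_of` in Mn5.lean). -/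
def S_LST : Prop := ∀ (a : ℤ) (Λ : ℝ) (R : ℕ) (m a0 a1 k Nb : ℕ) (u τ η : ℝ) (W : List ℕ → ℕ), 0 < a → 1 ≤ Λ →
  0 < m → 1 ≤ a0 → 4 * a0 = m → u * m ≤ a1 → (∀ l : List ℕ, l.length = k → W l ≠ 0 → 10000 * l.sum < 19999 * m) →
  cs a0 a1 (fun l => W l * gN m l.sum) k [] ≤ Nb → (Nb : ℝ) / 10 ^ (8 * k + 6) ≤ τ → 0 < η →
  ∀ᶠ x : ℕ in atTop, ∀ b : ℤ, (b : ℝ) ^ 2 ≤ Λ * x → ∀ x1 x2 : ℕ, x1 < x2 → x2 ≤ x → x ≤ R * x1 →
  ∀ Q : ℕ, (x : ℝ) ^ (1 / 4 : ℝ) ≤ Q → ∀ F : ℕ → ℝ,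
  (∀ N : ℕ, 0 < N → 19999 / 10000 * Real.log x ≤ Real.log N → Real.log N ≤ 20001 / 10000 * Real.log x → 0 < F N →
    ∃ t : List ℕ, t.length = k ∧ (∀ p ∈ t, p ∈ PQ x Q u) ∧ Real.log (t.prod : ℕ) ≤ 9 / 5 * Real.log x ∧ t.prod ∣ N ∧
      (N / t.prod).Prime ∧ F N ≤ W (t.map (cidx x m))) →
  Ls a b x1 x2 F ≤ τ * (((x2 : ℝ) - x1) / Real.log x) + η * (x / Real.log x)

/-- sum over the pairs of the entries of a list: `f (later entry) (earlier entry)` -/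
def ps2 {α : Type} (f : α → α → ℕ) : List α → ℕ
  | [] => 0
  | x :: xs => (xs.map (fun y => f y x)).sum + ps2 f xs

/-- TASK SRT.  The prime factors in decreasing order.
Proof. Let `L` be `N.primeFactors.sort (· ≥ ·)` (or `(N.primeFactors.sort (· ≤ ·)).reverse`). It is strictly decreasing, `L.toFinset =
N.primeFactors`, `L.prod = N`. The numbers `Dn`, `Pn` are sums over the pairs `q < p`, that is (for a strictly decreasing list) over the
pairs (later entry, earlier entry): prove by induction over a strictly decreasing list `L` that the number of the pairs `t` of entries of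
`L` with `t.1 < t.2 ∧ r t.1 t.2` is `ps2 (fun q p => if r q p then 1 else 0) L`. -/
def S_SRT : Prop := ∀ (N : ℕ), Squarefree N → N ≠ 1 → ∃ (P : ℕ) (t : List ℕ), (P :: t).Pairwise (· > ·) ∧ (∀ p ∈ P :: t, p.Prime) ∧
  N = P * t.prod ∧ t.length + 1 = w N ∧ (∀ p, p ∈ P :: t ↔ p ∈ N.primeFactors) ∧
  (∀ U V, Dn U V N = ps2 (fun q p => if q * p ≤ U ∧ V < q * q * p then 1 else 0) (P :: t)) ∧
  (∀ U, Pn U N = ps2 (fun q p => if q * p ≤ U then 1 else 0) (P :: t))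

/-- the cells `l` (decreasing) of the prime factors without the largest one are possible: decreasing, and the largest cell is not too large -/
def okl (m : ℕ) (l : List ℕ) : Bool :=
  decide (l.Pairwise (· ≥ ·)) && decide (10000 * (l.sum + l.headD 0) < 20001 * m + 10000 * (l.length + 1))

/-- the intervals `(lo, hi)`, in units of `log x / (10000 m)`, of the logarithms of the prime factors: first the one of the largest prime
factor, then those of the cells -/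
def ivs (m : ℕ) (l : List ℕ) : List (ℕ × ℕ) :=
  (max (19999 * m - 10000 * l.sum) (10000 * (l.headD 0 - 1)), 20001 * m + 10000 * l.length - 10000 * l.sum) ::
    l.map (fun c => (10000 * (c - 1), 10000 * c))

/-- an upper bound for the indicator function of the dropped pairs -/
def posd (m : ℕ) (a b : ℕ × ℕ) : ℕ := if a.1 + b.1 < 8750 * m ∧ 11250 * m < 2 * a.2 + b.2 then 1 else 0

/-- a lower bound for twice the indicator function of the pairs with small product minus the one of the dropped pairs -/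
def vv (m : ℕ) (a b : ℕ × ℕ) : ℕ := if a.2 + b.2 ≤ 8749 * m then (if 2 * a.2 + b.2 ≤ 11250 * m then 2 else 1) else 0

/-- the weights of the cells -/
def wD (m : ℕ) (l : List ℕ) : ℕ := if okl m l then ps2 (posd m) (ivs m l) else 0
/-- the weights of the cells for five primes -/
def wE (m : ℕ) (l : List ℕ) : ℕ := if okl m l then 14 - ps2 (vv m) (ivs m l) else 0
/-- the weights of the cells for three primes -/
def wF (m : ℕ) (l : List ℕ) : ℕ :=
  if okl m l then (if 19999 * m ≤ 8751 * m + 10000 * l.sum then 2 else ps2 (posd m) (ivs m l)) else 0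
/-- the weights of the cells for seven primes -/
def wG (m : ℕ) (l : List ℕ) : ℕ := if okl m l then 41 else 0

/-- the weights for `r` primes -/
def wr (m r : ℕ) (l : List ℕ) : ℕ := if r = 3 then wF m l else if r = 5 then wE m l else if r = 7 then wG m l else wD m l

/-- TASK WB.  The pointwise bound for the loss in terms of the cells. Let `L = log x`, `N = P * t.prod` as in `S_SRT` (`P` the largest
prime factor). Unit: `L / (10000 m)`.
(a) entries of `t` are in `PQ x Q (10001/10000)`: for `p ∈ t`: `p < P`, `p P ∣ N`, so `2 log p ≤ log N ≤ 20001/10000 L`. `log t.prod =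
log N - log P ≤ (1 - 1/7) log N ≤ 9/5 L` as `P` is the largest of at most seven prime factors. (b) `cidx_bounds` (Mn2.lean):
`(c - 1)/m L < log p ≤ c/m L` for the cell `c = cidx x m p`. So `log P = log N - log t.prod` lies between `(19999/10000 - ∑ c / m) L` and
`(20001/10000 - ∑ (c-1)/m) L`, and is larger than `log p` for `p ∈ t`: all logarithms of the prime factors lie in the intervals `ivs`
(natural number subtraction: `lo` is `≤`, and `hi` is correct since `∑ (c - 1) / m L ≤ log N`). `okl`: the cells are monotone in the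
primes (`cidx_mono`, Mn5.lean), and `log p ≤ log P` for the largest `p ∈ t`. (c) A dropped pair `q < p`: `log q + log p ≤ log U ≤ 7/8 L`,
`9/8 L ≤ log V < 2 log q + log p`: so `posd = 1` (`lo < log` strictly for the cells of `t`, and in a pair at least the smaller prime is in
`t`). If `a.2 + b.2 ≤ 8749 m` then `log (q p) ≤ (7/8 - 1/10000) L ≤ log U`; if `2 a.2 + b.2 ≤ 11250 m` then `log (q q p) ≤ 9/8 L ≤ log V`,
not dropped. So `ps2` of the true indicator functions is bounded termwise (induction along the two lists, `List.Forall₂`).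
(d) `r = 5`: `14 - 2 Pn + Dn ≤ 14 - ps2 vv` (`2 small - dropped ≥ vv ≥ 0` for every pair; if `ps2 vv > 14` use that `W5 ≥ 0` is not needed:
`14 - 2 Pn + Dn ≤ 14 - ps2 vv < 0 ≤` the truncated difference). `pi3 = 0` for `r ≠ 3` (`pi3_w`). `r = 7`: `Dn ≤ 21`. `r = 3`: if
`pi3 Q V1 N = 1` then `P ≤ V1`, so `log P ≤ (7/8 + 1/10000) L` and the first case of `wF` holds with value `2`, and then `Dn = 0`: a
dropped pair `q p ≤ U` has cofactor `≥ N / U > V1` by `U * V1 < N`. If it is `0`: in the first case of `wF` use `Dn ≤ 1` (of three primes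
only the smallest pair can have product `≤ U`, as `U * U < N`: two different pairs of three primes have product `> N`... `p1 p3 ≤ U` gives
`p1 p2 ≤ U` and `N² ≤ (p1 p2)(p1 p3)(p2 p3)`..., or simply: `p1 p3 ≤ U` gives `p2 ≥ N / U > U ≥ p1 p3 > p3`, a contradiction). -/
def S_WB : Prop := S_SRT → ∀ m r : ℕ, 0 < m → 3 ≤ r → r ≤ 7 → ∀ᶠ x : ℕ in atTop, ∀ Q U V V1 : ℕ, (x : ℝ) ^ (1 / 4 : ℝ) ≤ Q →
  (x : ℝ) ^ (7 / 8 - 1 / 10000 : ℝ) ≤ U → (U : ℝ) ≤ (x : ℝ) ^ (7 / 8 : ℝ) → (x : ℝ) ^ (9 / 8 : ℝ) ≤ V →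
  (V1 : ℝ) ≤ (x : ℝ) ^ (7 / 8 + 1 / 10000 : ℝ) → ∀ N : ℕ, 0 < N → 19999 / 10000 * Real.log x ≤ Real.log N →
  Real.log N ≤ 20001 / 10000 * Real.log x → Squarefree N → Rough Q N → w N = r →
  ∃ t : List ℕ, t.length = r - 1 ∧ (∀ p ∈ t, p ∈ PQ x Q (10001 / 10000)) ∧ Real.log (t.prod : ℕ) ≤ 9 / 5 * Real.log x ∧ t.prod ∣ N ∧
    (N / t.prod).Prime ∧ W5 Q U V V1 N ≤ wr m r (t.map (cidx x m))

/-- TASK N3.  A computation. For all the computations: see Mn4.lean (`sum_Ioc_sN`, `decide +kernel`); prune early (the weight is `0` unless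
the cells are decreasing lists, i.e. every new head is at least the previous one, and the partial sums satisfy the second condition of
`okl`): prove that `cs` equals (or is at most) a fast recursive function which skips the impossible cells, and replace the lists by plain
arguments, so that the kernel evaluation is fast. The file should compile in a few minutes. (Exact value: 3076926839005597129040, from
65176 cells with positive weight.) -/
def S_N3 : Prop := cs 300 1201 (fun l => wF 1200 l * gN 1200 l.sum) 2 [] ≤ 3077 * 10 ^ 18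
/-- TASK N4. See N3. (Exact value: 89840296263406831683806227111, from 47224 cells.) -/
def S_N4 : Prop := cs 60 241 (fun l => wD 240 l * gN 240 l.sum) 3 [] ≤ 899 * 10 ^ 26
/-- TASK N5. See N3. (Exact value: 4639622025373088710781227590425282005, from 30015 cells.) -/
def S_N5 : Prop := cs 30 121 (fun l => wE 120 l * gN 120 l.sum) 4 [] ≤ 464 * 10 ^ 34
/-- TASK N6. See N3. (Exact value: 32742801939267786822184321322799490992217930, from 1108 cells.) -/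
def S_N6 : Prop := cs 15 61 (fun l => wD 60 l * gN 60 l.sum) 5 [] ≤ 33 * 10 ^ 42
/-- TASK N7. See N3. (Exact value: 920801941701589098019437332854749334796369119989439, from 131 cells.) -/
def S_N7 : Prop := cs 15 61 (fun l => wG 60 l * gN 60 l.sum) 6 [] ≤ 93 * 10 ^ 49

end Pool.Agent.H568.LB
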