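import Mathlib
import Pool.Agent.H568.LB.Stm
import Pool.Agent.H568.P1

/-!
The pointwise identity and inequalities for `H5`.
-/

set_option autoImplicit false

namespace Pool.Agent.H568.LB

open Finset Pool.Agent.N792 Pool.Agent.N792.RX5
open Pool.Agent.N792.SwR (rough_of_dvd)
open ArithmeticFunction (moebius)

lemma Lt_l5 (z U y Q V1 N : ℕ) : Lt z y (l5 Q U V1) N =
    T2 z U y (mur Q) (rg Q) N + 2 * T2 z V1 y pi0 (pi2 Q) N - 2 * T2 z U y (pi2 Q) (pin Q 3) N := by
  unfold l5 Lt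
  simp only [List.map_cons, List.map_nil, List.sum_cons, List.sum_nil]
  ring

lemma mul_dvd_of_two {N p q : ℕ} (hp : p.Prime) (hq : q.Prime) (hpq : p ≠ q) (h1 : p ∣ N) (h2 : q ∣ N) : p * q ∣ N :=
  Nat.Coprime.mul_dvd_of_dvd_of_dvd ((Nat.coprime_primes hp hq).2 hpq) h1 h2

lemma w_two {p q : ℕ} (hp : p.Prime) (hq : q.Prime) (hpq : p ≠ q) : w (p * q) = 2 := by
  have hc : Nat.Coprime p q := (Nat.coprime_primes hp hq).2 hpq
  rw [w, hc.primeFactors_mul, card_union_of_disjoint hc.disjoint_primeFactors, hp.primeFactors, hq.primeFactors]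
  simp

/-- no dropped pair for at most two prime factors -/
lemma Dn_zero {U V N : ℕ} (hsq : Squarefree N) (hw : w N ≤ 2) (hU : U < N) : Dn U V N = 0 := by
  unfold Dn
  rw [card_eq_zero, filter_eq_empty_iff]
  rintro ⟨q, p⟩ ht hd
  rw [mem_product] at ht
  simp only at ht hd
  obtain ⟨h1, h2, h3⟩ := hd
  have hq := Nat.mem_primeFactors.1 ht.1
  have hp := Nat.mem_primeFactors.1 ht.2
  have h4 := mul_dvd_of_two hq.1 hp.1 (by omega) hq.2.1 hp.2.1
  have h5 := w_add hsq h4
  rw [w_two hq.1 hp.1 (by omega)] at h5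
  have h6 := one_of_w (hsq.squarefree_of_dvd (Nat.div_dvd_of_dvd h4)) (by omega)
  have h7 := Nat.mul_div_cancel' h4
  rw [h6, mul_one] at h7
  omega

/-- at most one prime factor is `> V1` -/
lemma big_le {Q V1 N : ℕ} (hsq : Squarefree N) (hr : Rough Q N) (hk : w N = 3) (hN : N ≤ V1 * V1 * Q) :
    #(N.primeFactors.filter (fun p => V1 < p)) ≤ 1 := by
  by_contra hcon
  push Not at hcon
  obtain ⟨p, hp, q, hq, hpq⟩ := one_lt_card.1 hcon
  rw [mem_filter, Nat.mem_primeFactors] at hp hq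
  have h5 := mul_dvd_of_two hp.1.1 hq.1.1 hpq hp.1.2.1 hq.1.2.1
  have h7 := w_add hsq h5
  rw [w_two hp.1.1 hq.1.1 hpq] at h7
  have h9 := w_pow (rough_of_dvd hr (Nat.div_dvd_of_dvd h5))
  rw [show w (N / (p * q)) = 1 by omega, pow_one] at h9
  have h10 := Nat.mul_div_cancel' h5
  have h11 : (V1 + 1) * (V1 + 1) ≤ p * q := Nat.mul_le_mul hp.2 hq.2
  have h13 : (V1 + 1) * (V1 + 1) * (Q + 1) ≤ p * q * (N / (p * q)) := Nat.mul_le_mul h11 h9
  have h14 : V1 * V1 * Q < (V1 + 1) * (V1 + 1) * (Q + 1) := by nlinarith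
  omega

/-- **the identity at the numbers whose prime factors are all `> Q`** -/
theorem eq5 (hS : S_SVQ) (hM : S_MU) (hT : S_T2S) {z U y Q V V1 K N : ℕ} {zs : ℕ → ℕ} (hU : 1 ≤ U) (hUV : U ≤ V1) (hVy : V1 ≤ y)
    (hzK : zs K = Q) (hmono : ∀ i < K, zs i ≤ zs (i + 1)) (hyN : y * y < N) (hN8 : N < Q ^ 8)
    (hNV : N ≤ V1 * V1 * Q) (hNy : N ≤ y * Q ^ 4)
    (hsq : Squarefree N) (hro : Rough z N) (hne : ∀ j, j ∣ N → ¬ (y ≤ j ∧ y ≤ N / j)) (hr : Rough Q N) :
    H5 z U y Q V V1 K zs N = pi0 N - W5 Q U V V1 N := by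
  classical
  have hwp := w_pow hr
  have hw0 : w N ≠ 0 := by
    intro h
    have h1 := one_of_w hsq h
    subst h1
    have : y = 0 := by nlinarith
    omega
  have hw8 : w N < 8 := by
    by_contra h
    push Not at h
    have h5 : (Q + 1) ^ 8 ≤ (Q + 1) ^ w N := Nat.pow_le_pow_right (by omega) h
    have h6 : Q ^ 8 ≤ (Q + 1) ^ 8 := Nat.pow_le_pow_left (by omega) 8
    omega
  have hyy : y ≤ y * y := Nat.le_mul_self y
  obtain ⟨m1, m3, m5, m7, m0⟩ := hM y Q N (by omega) hyN hsq hr hNy hne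
  obtain ⟨t1, t2, t3⟩ := hT z U y Q V1 N (by omega) hVy hro hsq hr
  unfold H5
  rw [hS z U y Q V K N zs hzK hmono hro hsq hr, Lt_l5, t1, t2, t3, pi0_w hsq]
  unfold W5
  have hp3 := pi3_w (V := V1) hsq hr
  have hnot3 : w N ≠ 3 → pi3 Q V1 N = 0 := by
    intro h
    rw [hp3, if_neg (by tauto)]
  rcases (by omega : w N = 1 ∨ w N = 2 ∨ w N = 3 ∨ w N = 4 ∨ w N = 5 ∨ w N = 6 ∨ w N = 7) with h | h | h | h | h | h | h
  · rw [m0 h, Dn_zero hsq (by omega) (by omega)]
    simp [h]
  · rw [m1 (by rw [h]; decide), Dn_zero hsq (by omega) (by omega)]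
    simp [h]
  · rw [m3 h]
    have hB := big_le hsq hr h hNV
    have hc3 : #N.primeFactors = 3 := h
    have e1 : #(N.primeFactors.filter (fun p => p ≤ y)) + #(N.primeFactors.filter (fun p => V1 < p)) =
        3 + #(N.primeFactors.filter (fun p => V1 < p ∧ p ≤ y)) := by
      have e2 : #(N.primeFactors.filter (fun p => V1 < p)) = #(N.primeFactors.filter (fun p => V1 < p ∧ p ≤ y)) +
          #(N.primeFactors.filter (fun p => y < p)) := by
        rw [← card_union_of_disjoint]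
        · congr 1
          ext p
          simp only [mem_union, mem_filter]
          constructor
          · rintro ⟨a1, a2⟩
            rcases Nat.lt_or_ge y p with a3 | a3
            · exact Or.inr ⟨a1, a3⟩
            · exact Or.inl ⟨a1, a2, a3⟩
          · rintro (⟨a1, a2, a3⟩ | ⟨a1, a2⟩)
            · exact ⟨a1, a2⟩
            · exact ⟨a1, by omega⟩
        · rw [disjoint_left]
          intro p a1 a2
          rw [mem_filter] at a1 a2
          omega
      have e3 : #(N.primeFactors.filter (fun p => p ≤ y)) + #(N.primeFactors.filter (fun p => y < p)) = 3 := by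
        rw [← hc3, ← card_union_of_disjoint]
        · congr 1
          ext p
          simp only [mem_union, mem_filter]
          constructor
          · rintro (⟨a1, _⟩ | ⟨a1, _⟩) <;> exact a1
          · intro a1
            rcases Nat.lt_or_ge y p with a3 | a3
            · exact Or.inr ⟨a1, a3⟩
            · exact Or.inl ⟨a1, a3⟩
        · rw [disjoint_left]
          intro p a1 a2
          rw [mem_filter] at a1 a2
          omega
      omega
    have e4 : pi3 Q V1 N = 1 - (#(N.primeFactors.filter (fun p => V1 < p)) : ℝ) := by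
      rcases (by omega : #(N.primeFactors.filter (fun p => V1 < p)) = 0 ∨ #(N.primeFactors.filter (fun p => V1 < p)) = 1) with h0 | h0
      · rw [hp3, if_pos, h0]
        · simp
        · refine ⟨h, fun p hp => ?_⟩
          rw [card_eq_zero, filter_eq_empty_iff] at h0
          have := h0 hp
          omega
      · rw [hp3, if_neg, h0]
        · simp
        · rintro ⟨_, h2⟩
          obtain ⟨p, hp⟩ := card_pos.1 (by omega : 0 < #(N.primeFactors.filter (fun p => V1 < p)))
          rw [mem_filter] at hp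
          have := h2 p hp.1
          omega
    rw [e4]
    have e5 : (#(N.primeFactors.filter (fun p => p ≤ y)) : ℝ) + #(N.primeFactors.filter (fun p => V1 < p)) =
        3 + #(N.primeFactors.filter (fun p => V1 < p ∧ p ≤ y)) := by exact_mod_cast e1
    simp only [h, hsq, hr]
    norm_num
    linarith
  · rw [m1 (by rw [h]; decide), hnot3 (by omega)]
    simp only [h, hsq, hr]
    norm_num
    ring
  · rw [m5 h, hnot3 (by omega)]
    simp only [h, hsq, hr]
    norm_num
    ring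
  · rw [m1 (by rw [h]; decide), hnot3 (by omega)]
    simp only [h, hsq, hr]
    norm_num
    ring
  · rw [m7 h, hnot3 (by omega)]
    simp only [h, hsq, hr]
    norm_num
    ring

lemma W5_nonneg (hA : S_A5) {Q U V V1 N : ℕ} (hUV : U * V ≤ N) : 0 ≤ W5 Q U V V1 N := by
  unfold W5
  split_ifs with h h5 h7 h7
  · omega
  · have h1 := hA U V N h.1 h5 hUV
    have h2 : (2 * Pn U N : ℝ) ≤ 14 + Dn U V N := by exact_mod_cast h1
    have h3 := (Pt.pi3_le Q V1 N).1
    linarith
  · have h3 := (Pt.pi3_le Q V1 N).1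
    positivity
  · have h3 := (Pt.pi3_le Q V1 N).1
    positivity
  · exact le_rfl

lemma H5_abs (hG : S_G5) (z U y Q V V1 K : ℕ) (zs : ℕ → ℕ) (hm : ∀ i < K, zs i ≤ zs (i + 1)) (N : ℕ) (hN : N ≠ 0) :
    |H5 z U y Q V V1 K zs N| ≤ 9 * (#N.divisors : ℝ) ^ 2 := by
  classical
  have hpi0 : ∀ j, |pi0 j| ≤ 1 := fun j => by rw [abs_of_nonneg (Pt.pi0_le j).1]; exact (Pt.pi0_le j).2
  have hpi2 : ∀ j, |pi2 Q j| ≤ 1 := fun j => by rw [abs_of_nonneg (Pt.pi2_le Q j).1]; exact (Pt.pi2_le Q j).2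
  have hpin : ∀ j, |pin Q 3 j| ≤ 1 := fun j => by rw [abs_of_nonneg (pin_le Q 3 j).1]; exact (pin_le Q 3 j).2
  have hrg : ∀ j, |rg Q j| ≤ 1 := fun j => by
    unfold rg
    split_ifs <;> simp
  have hmur : ∀ j, |mur Q j| ≤ 1 := fun j => by
    unfold mur
    rw [abs_mul]
    calc |(moebius j : ℝ)| * |rg Q j| ≤ 1 * 1 := mul_le_mul (mu_abs j) (hrg j) (abs_nonneg _) zero_le_one
      _ = 1 := one_mul 1
  have t0 := Sv_abs le_rfl (hG.1 Q U V) (z := z) (U := U) (y := y) hm hN
  have t3 := Pt.T2_abs1 z U y (mur Q) (rg Q) N hmur hrg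
  have t4 := Pt.T2_abs1 z V1 y pi0 (pi2 Q) N hpi0 hpi2
  have t5 := Pt.T2_abs1 z U y (pi2 Q) (pin Q 3) N hpi2 hpin
  have hD1 : (1 : ℝ) ≤ #N.divisors := by
    have : 1 ≤ #N.divisors := card_pos.2 ⟨1, by rw [Nat.mem_divisors]; exact ⟨one_dvd _, hN⟩⟩
    exact_mod_cast this
  have hDD : (#N.divisors : ℝ) ≤ (#N.divisors : ℝ) ^ 2 := le_self_pow₀ hD1 (by norm_num)
  unfold H5
  rw [Lt_l5]
  rw [abs_le] at t0 t3 t4 t5 ⊢
  constructor <;> linarith

/-- **the pointwise bounds** -/
theorem pt5 (hG : S_G5) (hS : S_SVQ) (hM : S_MU) (hT : S_T2S) (hA : S_A5) (hNR : S_NR)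
    (z U y Q V V1 K N : ℕ) (zs : ℕ → ℕ) (D : ℝ) (hU : 1 ≤ U) (hQU : Q ≤ U) (hUV1 : U ≤ V1) (hVy : V1 ≤ y)
    (h0 : zs 0 = z) (hK : zs K = Q) (hm : ∀ i < K, zs i ≤ zs (i + 1)) (h1 : y * y < N) (h2 : N < Q ^ 8)
    (hUUQ : U * U * Q < N) (hUV : U * V ≤ N) (hNV : N ≤ V1 * V1 * Q) (hNy : N ≤ y * Q ^ 4)
    (hD : Rough z N → (#N.divisors : ℝ) ≤ D) :
    |H5 z U y Q V V1 K zs N - min (H5 z U y Q V V1 K zs N) (pi0 N)| ≤ 12 * D ^ 2 * Bad z y Q K zs N ∧
    pi0 N - W5 Q U V V1 N - 12 * D ^ 2 * Bad z y Q K zs N ≤ min (H5 z U y Q V V1 K zs N) (pi0 N) := by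
  classical
  have hmono : ∀ i i' : ℕ, i ≤ i' → i' ≤ K → zs i ≤ zs i' := by
    intro i i' h
    induction i', h using Nat.le_induction with
    | base => intro _; exact le_rfl
    | succ n hn ih =>
      intro hn2
      exact (ih (by omega)).trans (hm n (by omega))
  have hzQ : z ≤ Q := by rw [← h0, ← hK]; exact hmono 0 K (by omega) le_rfl
  have hB := Pt.Bad_nonneg z y Q K zs N
  have hW : 0 ≤ W5 Q U V V1 N := W5_nonneg hA hUV
  have hN0 : N ≠ 0 := by omega
  have hyN : y < N := by nlinarith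
  by_cases hr : Rough z N
  swap
  · have hrg : rg z N = 0 := by unfold rg; rw [if_neg hr]
    have hH : H5 z U y Q V V1 K zs N = 0 := by
      unfold H5
      rw [Sv_case0 hr, Lt_l5]
      unfold T2
      simp [hrg]
    have hp0 : pi0 N = 0 := by
      unfold pi0
      rw [if_neg]
      intro hp
      apply hr
      refine ⟨hN0, fun p hp' hd => ?_⟩
      rw [(Nat.prime_dvd_prime_iff_eq hp' hp).1 hd]
      omega
    have hpos : 0 ≤ 12 * D ^ 2 * Bad z y Q K zs N := by positivity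
    rw [hH, hp0, min_self, sub_zero, abs_zero]
    constructor <;> linarith
  · have hD' := hD hr
    have hD1 : (1 : ℝ) ≤ D := by
      refine le_trans ?_ hD'
      have : 1 ≤ #N.divisors := card_pos.2 ⟨1, by rw [Nat.mem_divisors]; exact ⟨one_dvd _, hN0⟩⟩
      exact_mod_cast this
    have g5 : (1 : ℝ) ≤ D ^ 2 := one_le_pow₀ hD1
    rcases good_or_bad (y := y) hK hm hr with hb | ⟨hsq, hne, huniq⟩
    · have g1 := H5_abs hG z U y Q V V1 K zs hm N hN0
      have g2 : (#N.divisors : ℝ) ^ 2 ≤ D ^ 2 := pow_le_pow_left₀ (Nat.cast_nonneg _) hD' 2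
      have g6 : 12 * D ^ 2 * 1 ≤ 12 * D ^ 2 * Bad z y Q K zs N := mul_le_mul_of_nonneg_left hb (by positivity)
      have g7 := Pt.pi0_le N
      have g8 := abs_le.1 g1
      have g9 : -(9 * D ^ 2) ≤ min (H5 z U y Q V V1 K zs N) (pi0 N) := le_min (by linarith) (by linarith)
      have g10 : min (H5 z U y Q V V1 K zs N) (pi0 N) ≤ pi0 N := min_le_right _ _
      have g11 : min (H5 z U y Q V V1 K zs N) (pi0 N) ≤ H5 z U y Q V V1 K zs N := min_le_left _ _
      constructor
      · rw [abs_of_nonneg (by linarith)]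
        rcases min_choice (H5 z U y Q V V1 K zs N) (pi0 N) with h | h
        · rw [h]; linarith
        · rw [h]; linarith
      · linarith
    · have hpos : 0 ≤ 12 * D ^ 2 * Bad z y Q K zs N := by positivity
      by_cases hQ : Rough Q N
      · have k1 := eq5 hS hM hT (V := V) hU hUV1 hVy hK hm h1 h2 hNV hNy hsq hr hne hQ
        rw [min_eq_left (by linarith), sub_self, abs_zero]
        constructor <;> linarith
      · have k1 := hNR hG z U y Q V V1 K N zs hU hQU hUV1 hVy h0 hK hm h1 hUUQ hsq hr hne huniq hQ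
        have h6 : pi0 N = 0 := by
          by_contra h
          have h7 := pi0_ne h
          apply hQ
          refine prime_rough h7 ?_
          omega
        rw [k1, h6, min_self, sub_self, abs_zero]
        constructor <;> linarith

end Pool.Agent.H568.LB
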