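import Mathlib
import Pool.Graph.R_pool_sql_team_seeded_63374d34.N792.RFin
import Pool.Agent.H568.La
import Pool.Agent.H568.LB.Stm

/-!
The general combination of the sieve part with type II functions, for `C ≥ x^(γ+ε)`, `γ ≥ 3/5`.
-/

set_option autoImplicit false

namespace Pool.Agent.H568.LB

open Finset Filter Topology Pool.Agent.N792 Pool.Agent.N791.U
open ArithmeticFunction (moebius)

/-- the general statement, for `γ ≥ 3 / 5` -/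
def LamG5 (a : ℤ) (Λ : ℝ) : Prop := ∃ As : ℕ, ∀ E R M n : ℕ, ∀ γ ε κ K1 : ℝ, 3 / 5 ≤ γ → 0 < ε → γ + ε ≤ 1 → 0 < κ →
    1 ≤ K1 → 1 ≤ M →
    ∃ η1 e2 D c0 A : ℝ, ∃ K x0 : ℕ, 0 < η1 ∧ η1 ≤ 1 / 20 ∧ 0 < e2 ∧ e2 ≤ 1 / 200 ∧ e2 ≤ ε / 8 ∧ 1 ≤ D ∧ 0 < c0 ∧ 1 ≤ A ∧
    ∀ x : ℕ, x0 ≤ x → ∀ J : ℕ,
    (x : ℝ) ^ (η1 / 2) ≤ ((2 ^ 2 ^ J : ℕ) : ℝ) → ((2 ^ 2 ^ J : ℕ) : ℝ) ≤ (x : ℝ) ^ η1 →
    (∀ N : ℕ, (N : ℝ) ≤ (x : ℝ) ^ 3 → Rough (2 ^ 2 ^ J) N → (#N.divisors : ℝ) ≤ D) ∧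
    ∀ U y Q : ℕ, 1 ≤ U → U ≤ y → (y : ℝ) ≤ (x : ℝ) ^ (1 - e2) → (x : ℝ) ^ (1 - 2 * e2) ≤ y →
    (x : ℝ) ^ (3 / 2 - γ - ε / 2) ≤ U → (U : ℝ) ≤ (x : ℝ) ^ (9 / 10 : ℝ) → (x : ℝ) ^ (1 / 4 : ℝ) ≤ Q →
    (Q : ℝ) ≤ (x : ℝ) ^ (9 / 20 : ℝ) → ((Q * Q : ℕ) : ℝ) ≤ (x : ℝ) ^ (9 / 10 : ℝ) →
    ∃ zs : ℕ → ℕ, zs 0 = 2 ^ 2 ^ J ∧ zs K = Q ∧ (∀ i < K, zs i ≤ zs (i + 1)) ∧
    (∀ b : ℤ, (b : ℝ) ^ 2 ≤ Λ * x → ∀ x1 x2 : ℕ, x1 < x2 → x2 ≤ x → x ≤ R * x1 →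
      M * D ^ 2 * Ls a b x1 x2 (Bad (2 ^ 2 ^ J) y Q K zs) ≤ κ * (x / Real.log x)) ∧
    ∀ (g G : ℕ → ℝ) (l : List (ℝ × (ℕ → ℝ) × ℕ × (ℕ → ℝ))), (∀ k, |g k| ≤ 1) → (∀ k, g k ≠ 0 → Squarefree k) →
    (∀ m, m ≠ 0 → SL m M (fun P => g (m * P))) → l.length ≤ n →
    (∀ t ∈ l, |t.1| ≤ M ∧ Ok M t.2.1 ∧ U ≤ t.2.2.1 ∧ t.2.2.1 ≤ y ∧ Ok M t.2.2.2) →
    (∀ N : ℕ, c0 * (x : ℝ) ^ 2 < N → (N : ℝ) ≤ A * (x : ℝ) ^ 2 →
      (Rough (2 ^ 2 ^ J) N → (#N.divisors : ℝ) ≤ D) →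
      |Sv g (2 ^ 2 ^ J) U y K zs N + Lt (2 ^ 2 ^ J) y l N - G N| ≤ M * D ^ 2 * Bad (2 ^ 2 ^ J) y Q K zs N) →
    ∀ b : ℤ, ∀ x1 C Jw : ℕ, (b : ℝ) ^ 2 ≤ Λ * C → x1 < x → x ≤ R * x1 → (x : ℝ) ^ (γ + ε) ≤ C → C ≤ x →
    Real.log x ^ As ≤ ((2 ^ 2 ^ Jw : ℕ) : ℝ) → ((2 ^ 2 ^ Jw : ℕ) : ℝ) ≤ Real.log x ^ E →
    ∀ Gd ⊆ Icc 1 C, (∀ c ∈ Gd, |Vc a b c (2 ^ 2 ^ J) * V1 (2 ^ 2 ^ Jw) - Vc a b c (2 ^ 2 ^ Jw) * V1 (2 ^ 2 ^ J)| ≤
      Vc a b c (2 ^ 2 ^ Jw) * V1 (2 ^ 2 ^ J) / Real.log x ^ 3) → (∀ c ∈ Gd, Vc a b c (2 ^ 2 ^ Jw) / V1 (2 ^ 2 ^ Jw) ≤ K1) →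
    ∑ c ∈ Gd, |Phi a b x1 x c (2 ^ 2 ^ Jw) G| ≤ κ * (C * x / Real.log x)

theorem lamG5 (hq1 : Q1) (hq4 : Q4) (a : ℤ) (ha : 0 < a) (Λ : ℝ) (hΛ : 1 ≤ Λ) (hX3 : ∀ R, X3D a Λ R) (hR1 : R1U a Λ) (hR2 : R2U a)
    (hMT : MTU a Λ) (hX2 : X2U a Λ) (hX6 : X6U a Λ) (hX7 : X7U a Λ) : LamG5 a Λ := by
  classical
  obtain ⟨As, h2⟩ := type_two3U hq1 hq4 a ha Λ hΛ hR1 hR2 hMT 2
  refine ⟨As, fun E R M n γ ε κ K1 hγ hε hγε hκ hK1 hM => ?_⟩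
  obtain ⟨C4, η0, hC4, hη0, hTI⟩ := hX2 R K1 hK1
  obtain ⟨C3, hC3, hgap⟩ := hX3 R
  obtain ⟨C2, η2, hC2, hη2, hsame⟩ := hX6 R K1 hK1
  obtain ⟨c0, A, hc0, hA, X0, hX0⟩ := range_bdU a ha Λ hΛ R
  obtain ⟨η1, hη1, hη10, hη120, hη1C⟩ := Lam.choose_eta C4 (min η0 η2) κ hC4 (lt_min hη0 hη2) hκ
  obtain ⟨D, hD⟩ : ∃ D : ℝ, D = (2 : ℝ) ^ (3 / (η1 / 2)) := ⟨_, rfl⟩
  have hD1 : 1 ≤ D := by rw [hD]; exact Real.one_le_rpow (by norm_num) (by positivity)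
  have hDpos : 0 < D := by linarith
  have hM1 : (1 : ℝ) ≤ M := by exact_mod_cast hM
  obtain ⟨M0, hM0⟩ : ∃ M0 : ℝ, M0 = M * D ^ 2 := ⟨_, rfl⟩
  have hM0p : 0 < M0 := by rw [hM0]; positivity
  have hK1p : 0 < 1 + K1 := by linarith
  obtain ⟨ε2, hε2, hε21, hε23, hε22⟩ : ∃ ε2 : ℝ, 0 < ε2 ∧ ε2 ≤ 1 / 200 ∧ ε2 ≤ ε / 8 ∧
      M0 * (1 + K1) * (C3 * (2 * ε2 / (η1 / 2) ^ 2)) ≤ κ / 8 := by
    refine ⟨min (min (1 / 200) (ε / 8)) (κ * (η1 / 2) ^ 2 / (16 * M0 * (1 + K1) * C3)), by positivity,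
      (min_le_left _ _).trans (min_le_left _ _), ?_, ?_⟩
    · exact (min_le_left _ _).trans (min_le_right _ _)
    have h3 : min (min (1 / 200) (ε / 8)) (κ * (η1 / 2) ^ 2 / (16 * M0 * (1 + K1) * C3)) ≤
      κ * (η1 / 2) ^ 2 / (16 * M0 * (1 + K1) * C3) := min_le_right _ _
    calc M0 * (1 + K1) * (C3 * (2 * min (min (1 / 200) (ε / 8)) (κ * (η1 / 2) ^ 2 / (16 * M0 * (1 + K1) * C3)) / (η1 / 2) ^ 2))
        ≤ M0 * (1 + K1) * (C3 * (2 * (κ * (η1 / 2) ^ 2 / (16 * M0 * (1 + K1) * C3)) / (η1 / 2) ^ 2)) := by gcongr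
      _ = κ / 8 := by field_simp; norm_num
  obtain ⟨κ0, hκ0, hκ01, hκ02⟩ : ∃ κ0 : ℝ, 0 < κ0 ∧ κ0 ≤ 1 ∧ M0 * (1 + K1) * (C2 * (κ0 / η1 ^ 2)) ≤ κ / 8 := by
    refine ⟨min 1 (κ * η1 ^ 2 / (8 * M0 * (1 + K1) * C2)), by positivity, min_le_left _ _, ?_⟩
    have h3 : min 1 (κ * η1 ^ 2 / (8 * M0 * (1 + K1) * C2)) ≤ κ * η1 ^ 2 / (8 * M0 * (1 + K1) * C2) := min_le_right _ _
    calc M0 * (1 + K1) * (C2 * (min 1 (κ * η1 ^ 2 / (8 * M0 * (1 + K1) * C2)) / η1 ^ 2))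
        ≤ M0 * (1 + K1) * (C2 * ((κ * η1 ^ 2 / (8 * M0 * (1 + K1) * C2)) / η1 ^ 2)) := by gcongr
      _ = κ / 8 := by field_simp
  obtain ⟨ε', hε', hε'1, hε'2⟩ : ∃ ε' : ℝ, 0 < ε' ∧ ε' ≤ ε2 ∧ ε' ≤ ε / 2 :=
    ⟨min ε2 (ε / 2), by positivity, min_le_left _ _, min_le_right _ _⟩
  obtain ⟨E', hE'⟩ : ∃ E' : ℕ, E' = max E (As + 6) := ⟨_, rfl⟩
  obtain ⟨K, hzs⟩ := Par.exists_zs (η1 / 2) κ0 (by positivity) hκ0 hκ01
  obtain ⟨xTI, hTI⟩ := hTI η1 hη1 (hη10.trans (min_le_left _ _)) E'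
  obtain ⟨xTII, hTII⟩ := h2 E' R (η1 / 2) ε' (by positivity) hε' (by linarith)
  obtain ⟨xg, hgap⟩ := hgap (η1 / 2) (2 * ε2) (by positivity) (by linarith) (by positivity) (by linarith)
  obtain ⟨xs, hsame⟩ := hsame η1 κ0 hη1 (hη10.trans (min_le_right _ _)) hκ0 hκ01 E'
  obtain ⟨xq, hsqd⟩ := hX7 R (η1 / 2) (by positivity)
  obtain ⟨xh, hEq⟩ := eqd_ok (η1 / 2) (by positivity) (2 * M) As E' (by omega)
  have hev := hzs.and ((Shp.log_ge (4 * (2 * K + n * M + M0 * (1 + K1)) / κ)).and ((Shp.log_ge (2 + 8 * M0 / κ)).and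
    ((eventually_ge_atTop ⌈A⌉₊).and (ev_log_pow 1 E' (δ := 1) (by norm_num)))))
  obtain ⟨xe, hxe⟩ := eventually_atTop.1 hev
  refine ⟨η1, ε2, D, c0, A, K, max (max (max xTI xTII) (max xg xs)) (max (max xq xh) (max (max xe X0) 2)), hη1, hη120,
    hε2, hε21, hε23, hD1, hc0, hA, ?_⟩
  intro x hx J hz1 hz2
  have hx2 : 2 ≤ x := by omega
  refine ⟨fun N hN hr => by rw [hD]; exact Lam.div_bound (by positivity) hx2 hz1 hN hr, ?_⟩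
  intro U y Q hU1 hUy hyhi hylo hUlo hUhi hQlo hQhi hQQ
  obtain ⟨hzs, hLa, hLb, hAx, hLx⟩ := hxe x (by omega)
  have hxr : (1 : ℝ) ≤ x := by exact_mod_cast (by omega : 1 ≤ x)
  have hxp : (0 : ℝ) < x := by linarith
  have hAx' : A ≤ x := (Nat.le_ceil A).trans (by exact_mod_cast hAx)
  obtain ⟨L, hL⟩ : ∃ L : ℝ, L = Real.log x := ⟨_, rfl⟩
  rw [← hL] at hLa hLb
  have hM0κ : 0 < 8 * M0 / κ := by positivity
  have hLp : 0 < L := by linarith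
  have hL1 : 1 ≤ L := by linarith
  obtain ⟨z, hzdef⟩ : ∃ z : ℕ, z = 2 ^ 2 ^ J := ⟨_, rfl⟩
  have hzx : z ≤ x := by
    have : (z : ℝ) ≤ (x : ℝ) ^ (1 : ℝ) := by
      rw [hzdef]
      exact hz2.trans (Real.rpow_le_rpow_of_exponent_le hxr (by linarith))
    rw [Real.rpow_one] at this
    exact_mod_cast this
  have hzQ : z ≤ Q := by
    have : (z : ℝ) ≤ Q := by
      rw [hzdef]
      exact (hz2.trans (Real.rpow_le_rpow_of_exponent_le hxr (by linarith))).trans hQlo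
    exact_mod_cast this
  have hQx : Q ≤ x := by
    have : (Q : ℝ) ≤ (x : ℝ) ^ (1 : ℝ) := hQhi.trans (Real.rpow_le_rpow_of_exponent_le hxr (by norm_num))
    rw [Real.rpow_one] at this
    exact_mod_cast this
  have hyx : y ≤ x := by
    have : (y : ℝ) ≤ (x : ℝ) ^ (1 : ℝ) := hyhi.trans (Real.rpow_le_rpow_of_exponent_le hxr (by linarith))
    rw [Real.rpow_one] at this
    exact_mod_cast this
  have hz1' : 1 ≤ z := by rw [hzdef]; exact Nat.one_le_two_pow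
  obtain ⟨zs, hzs0, hzsK, hzsm, hzsl⟩ := hzs z Q (by rw [hzdef]; exact hz1) hzQ hQx
  obtain ⟨ts, hts1, hts2⟩ := exists_pow_two (Y := L ^ (As + 5)) (one_le_pow₀ hL1)
  have htsE : (2 : ℝ) ^ ts ≤ L ^ E' := by
    calc (2 : ℝ) ^ ts ≤ 2 * L ^ (As + 5) := hts2
      _ ≤ L * L ^ (As + 5) := mul_le_mul_of_nonneg_right (by linarith) (by positivity)
      _ = L ^ (As + 6) := by ring
      _ ≤ L ^ E' := pow_le_pow_right₀ hL1 (by omega)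
  have hyhi' : (y : ℝ) ≤ (x : ℝ) ^ (1 - ε') := hyhi.trans (Real.rpow_le_rpow_of_exponent_le hxr (by linarith))
  -- an admissible level for `w`, used only for the bound for `Ls`
  have hJw0 : ((2 ^ 2 ^ 0 : ℕ) : ℝ) ≤ Real.log x ^ E' := by
    rw [← hL]
    have h6 : (6 : ℕ) ≤ E' := by omega
    calc ((2 ^ 2 ^ 0 : ℕ) : ℝ) = 2 := by norm_num
      _ ≤ L := by linarith
      _ ≤ L ^ E' := le_self_pow₀ hL1 (by omega)
  have hlsbad : ∀ b : ℤ, (b : ℝ) ^ 2 ≤ Λ * x → ∀ x1 : ℕ, x1 < x → x ≤ R * x1 →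
      Ls a b x1 x (Bad z y Q K zs) ≤ C3 * (2 * ε2 / (η1 / 2) ^ 2) * (x / L) + x / L ^ 2 + C2 * (κ0 / η1 ^ 2) * (x / L) := by
    intro b hbX x1 hx1 hxR
    have hx3 : (x : ℝ) ^ (3 / 5 : ℝ) ≤ (x : ℕ) := by
      calc (x : ℝ) ^ (3 / 5 : ℝ) ≤ (x : ℝ) ^ (1 : ℝ) := Real.rpow_le_rpow_of_exponent_le hxr (by norm_num)
        _ = (x : ℝ) := Real.rpow_one _
    obtain ⟨g1, g2⟩ := hgap x (by omega) b x1 x z y hbX hx1 hxR hx3 le_rfl (by rw [hzdef]; exact hz1) hylo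
    obtain ⟨q1, q2⟩ := hsqd x (by omega) b hbX x1 x z hx1 hxR hx3 le_rfl (by rw [hzdef]; exact hz1)
    obtain ⟨s1, s2⟩ := hsame x (by omega) b hbX x1 x J 0 K Q (Q * Q) zs hx1 hxR hx3 le_rfl hz1 hz2 hJw0 hQhi hQQ
      (by rw [hzs0, hzdef]) hzsK hzsm hzsl
    rw [← hzdef] at s1
    rw [← hL] at g2 q2 s1
    rw [L9.Ls_Bad]
    linarith
  have hBad0 := Pt.Bad_nonneg z y Q K zs
  refine ⟨zs, hzs0.trans hzdef, hzsK, hzsm, ?_, ?_⟩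
  · intro b hbX x1 x2 hx12 hx2x hxR
    rw [← hzdef, ← hL]
    obtain ⟨hbx2, _, _⟩ := hX0 x (by omega) b hbX x1 (by omega) hxR
    have h1 := hlsbad b hbX x1 (by omega) hxR
    have h2 := Ls_mono_int ha (Bad z y Q K zs) hBad0 (by omega : b.natAbs ≤ x1) hx12.le hx2x
    rw [← hM0]
    have hX : 0 ≤ (x : ℝ) / L := by positivity
    have e1 : (x : ℝ) / L ^ 2 = (x / L) / L := by field_simp
    have e2 : M0 * ((x : ℝ) / L ^ 2) ≤ κ / 8 * (x / L) := by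
      rw [e1]
      have : M0 * ((x / L) / L) = (M0 / L) * (x / L) := by ring
      rw [this]
      apply mul_le_mul_of_nonneg_right _ hX
      rw [div_le_iff₀ hLp]
      have h3 : 8 * M0 / κ ≤ L := by linarith
      rw [div_le_iff₀ hκ] at h3
      linarith
    have e3 : M0 * (C3 * (2 * ε2 / (η1 / 2) ^ 2)) ≤ κ / 8 := by
      refine le_trans ?_ hε22
      have : M0 * (1 + K1) * (C3 * (2 * ε2 / (η1 / 2) ^ 2)) = M0 * (C3 * (2 * ε2 / (η1 / 2) ^ 2)) +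
        K1 * (M0 * (C3 * (2 * ε2 / (η1 / 2) ^ 2))) := by ring
      rw [this]
      have : 0 ≤ K1 * (M0 * (C3 * (2 * ε2 / (η1 / 2) ^ 2))) := by
        have : 0 ≤ K1 := by linarith
        positivity
      linarith
    have e4 : M0 * (C2 * (κ0 / η1 ^ 2)) ≤ κ / 8 := by
      refine le_trans ?_ hκ02
      have : M0 * (1 + K1) * (C2 * (κ0 / η1 ^ 2)) = M0 * (C2 * (κ0 / η1 ^ 2)) +
        K1 * (M0 * (C2 * (κ0 / η1 ^ 2))) := by ring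
      rw [this]
      have : 0 ≤ K1 * (M0 * (C2 * (κ0 / η1 ^ 2))) := by
        have : 0 ≤ K1 := by linarith
        positivity
      linarith
    have e5 := mul_le_mul_of_nonneg_right e3 hX
    have e6 := mul_le_mul_of_nonneg_right e4 hX
    have e7 : 0 ≤ κ * (x / L) := mul_nonneg hκ.le hX
    calc M0 * Ls a b x1 x2 (Bad z y Q K zs)
        ≤ M0 * (C3 * (2 * ε2 / (η1 / 2) ^ 2) * (x / L) + x / L ^ 2 + C2 * (κ0 / η1 ^ 2) * (x / L)) :=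
          mul_le_mul_of_nonneg_left (h2.trans h1) hM0p.le
      _ = M0 * (C3 * (2 * ε2 / (η1 / 2) ^ 2)) * (x / L) + M0 * (x / L ^ 2) + M0 * (C2 * (κ0 / η1 ^ 2)) * (x / L) := by ring
      _ ≤ κ / 8 * (x / L) + κ / 8 * (x / L) + κ / 8 * (x / L) := by linarith
      _ ≤ κ * (x / L) := by linarith
  intro g G l hg1 hg2 hg3 hln hl hpt b x1 C Jw hbC hx1 hxR hC hCx hw1 hw2 Gd hGd hGd2 hGd3
  rw [← hzdef] at hpt
  have hbX : (b : ℝ) ^ 2 ≤ Λ * x := hbC.trans (mul_le_mul_of_nonneg_left (by exact_mod_cast hCx) (by linarith))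
  obtain ⟨hbx2, hr1, hr2⟩ := hX0 x (by omega) b hbX x1 hx1 hxR
  have hbx : b.natAbs ≤ x1 := by omega
  have hC6 : (x : ℝ) ^ (3 / 5 : ℝ) ≤ C := (Real.rpow_le_rpow_of_exponent_le hxr (by linarith)).trans hC
  obtain ⟨w, hwdef⟩ : ∃ w : ℕ, w = 2 ^ 2 ^ Jw := ⟨_, rfl⟩
  have hwE : ((2 ^ 2 ^ Jw : ℕ) : ℝ) ≤ Real.log x ^ E' := by
    refine hw2.trans ?_
    rw [← hL]
    exact pow_le_pow_right₀ hL1 (by omega)
  have hCU : (x : ℝ) ^ (3 / 2 + ε') ≤ C * U := by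
    calc (x : ℝ) ^ (3 / 2 + ε') ≤ (x : ℝ) ^ ((γ + ε) + (3 / 2 - γ - ε / 2)) :=
          Real.rpow_le_rpow_of_exponent_le hxr (by linarith)
      _ = (x : ℝ) ^ (γ + ε) * (x : ℝ) ^ (3 / 2 - γ - ε / 2) := Real.rpow_add hxp _ _
      _ ≤ C * U := mul_le_mul hC hUlo (by positivity) (Nat.cast_nonneg _)
  -- the equidistribution
  have hEq : ∀ f : ℕ → ℝ, Ok (2 * M) f → EqD x z ts w As f := by
    intro f hf
    rw [hwdef]
    exact hEq x (by omega) z Jw ts (by rw [hzdef]; exact hz1) hzx hw1 hwE (by rw [← hL]; exact hts1)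
      (by rw [← hL]; exact htsE) f hf
  -- type II
  have hT2 : ∀ (W : ℕ) (f g : ℕ → ℝ), U ≤ W → W ≤ y → EqD x z ts w As f → EqD x z ts w As g →
      ∑ c ∈ Gd, |Phi a b x1 x c w (T2 z W y f g)| ≤ C * x / L ^ 2 := by
    intro W f g hUW hWy hf hg
    have hCW : (x : ℝ) ^ (3 / 2 + ε') ≤ C * W := by
      refine hCU.trans (mul_le_mul_of_nonneg_left ?_ (Nat.cast_nonneg _))
      exact_mod_cast hUW
    have := hTII x (by omega) b x1 C z W y Jw ts hbC hx1 hxR hCW hCx (by rw [hzdef]; exact hz1) hzx hWy hyhi' hwE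
      (by rw [← hL]; exact hts1) (by rw [← hL]; exact htsE) f g (by
        intro m hm hrm
        rw [mem_Ioc] at hm
        apply hf.1 m _ hrm
        calc m ≤ x := by omega
          _ ≤ x ^ 3 := Nat.le_self_pow (by norm_num) x) (by rw [← hwdef]; exact hg)
    rw [← hwdef, ← hL] at this
    refine le_trans ?_ this
    apply sum_le_sum_of_subset_of_nonneg hGd
    intro c _ _
    exact abs_nonneg _
  -- type I
  have hT1 : 4 * L * ∑ c ∈ Gd, |Phi a b x1 x c w (T1 z U g)| ≤ κ * (C * x) := by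
    have hg4 : ∀ j : ℕ, |(4 * L) * g j| ≤ 4 * Real.log x := by
      intro j
      rw [abs_mul, abs_of_nonneg (by linarith : 0 ≤ 4 * L), hL]
      have h0 : 0 ≤ 4 * Real.log x := by rw [← hL]; linarith
      calc 4 * Real.log x * |g j| ≤ 4 * Real.log x * 1 := mul_le_mul_of_nonneg_left (hg1 j) h0
        _ = 4 * Real.log x := mul_one _
    have := hTI x (by omega) b hbX x1 C J Jw U hx1 hxR hC6 hCx hz1 hz2 hwE hUhi Gd hGd hGd2 hGd3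
      (fun d => (4 * L) * g d) (fun j _ => hg4 j) (by
        intro j _ hj
        exact hg2 j (right_ne_zero_of_mul hj))
    rw [← hzdef, ← hwdef] at this
    have e1 : ∀ c ∈ Gd, |Lc a b x1 x c (T1 z U (fun d => (4 * L) * g d)) -
        Vc a b c w / V1 w * Ls a b x1 x (T1 z U (fun d => (4 * L) * g d))| =
        4 * L * |Phi a b x1 x c w (T1 z U g)| := by
      intro c _
      rw [L9.T1_smul]
      have := L9.Phi_smul a b x1 x c w (4 * L) (T1 z U g)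
      unfold Phi at this ⊢
      rw [this, abs_mul, abs_of_nonneg (by linarith : 0 ≤ 4 * L)]
    rw [sum_congr rfl e1, ← mul_sum] at this
    refine this.trans ?_
    exact mul_le_mul_of_nonneg_right hη1C (by positivity)
  -- the pointwise bound
  have hpt2 : ∀ N : ℕ, Fn a b x1 < N → N ≤ Fn a b x + x →
      |(fun N => Sv g z U y K zs N + Lt z y l N) N - G N| ≤ M0 * Bad z y Q K zs N := by
    intro N hN1 hN2
    have b1' : c0 * (x : ℝ) ^ 2 < N := lt_of_le_of_lt hr1 (by exact_mod_cast hN1)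
    have b2 : (N : ℝ) ≤ A * (x : ℝ) ^ 2 := by
      have : (N : ℝ) ≤ ((Fn a b x : ℕ) : ℝ) + x := by exact_mod_cast hN2
      linarith
    obtain ⟨l1, l2, l3⟩ := Lam.log_bd hc0 hA (by omega) b1'.le b2 hAx'
    rw [hM0]
    refine hpt N b1' b2 ?_
    intro hr
    rw [hD]
    exact Lam.div_bound (by positivity) hx2 (by rw [hzdef]; exact hz1) l3 hr
  have hfv : ∀ c ∈ Icc 1 C, ∀ n ∈ Ioc x1 x, Fn a b x1 < (fv a b (c : ℕ) n).toNat ∧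
      (fv a b (c : ℕ) n).toNat ≤ Fn a b x + x := by
    intro c hc n hn
    rw [mem_Icc] at hc
    rw [mem_Ioc] at hn
    rw [Mtm.fv_eq ha (by omega), Int.toNat_natCast]
    have f1 : Fn a b x1 ≤ Fn a b n := Mtm.Fn_mono ha hbx hn.1.le
    have f2 : Fn a b n ≤ Fn a b x := Mtm.Fn_mono ha (by omega) hn.2
    omega
  -- the bad numbers
  obtain ⟨g1, g2⟩ := hgap x (by omega) b x1 C z y hbC hx1 hxR hC6 hCx (by rw [hzdef]; exact hz1) hylo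
  obtain ⟨q1, q2⟩ := hsqd x (by omega) b hbX x1 C z hx1 hxR hC6 hCx (by rw [hzdef]; exact hz1)
  obtain ⟨s1, s2⟩ := hsame x (by omega) b hbX x1 C J Jw K Q (Q * Q) zs hx1 hxR hC6 hCx hz1 hz2 hwE hQhi hQQ
    (by rw [hzs0, hzdef]) hzsK hzsm hzsl
  have s2 := s2 Gd hGd hGd2 hGd3
  rw [← hzdef] at s1 s2
  rw [← hL] at g1 g2 q1 q2 s1 s2
  have hgpn : ∀ c, 0 ≤ Lc a b x1 x c (gp z y) := fun c => L9.Lc_nonneg _ _ _ _ _ _ (Lam.gp_nonneg z y)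
  have hsqn : ∀ c, 0 ≤ Lc a b x1 x c (sqd z) := fun c => L9.Lc_nonneg _ _ _ _ _ _ (Pt.sqd_nonneg z)
  have hbc : ∑ c ∈ Gd, Lc a b x1 x c (Bad z y Q K zs) ≤ C3 * (2 * ε2 / (η1 / 2) ^ 2) * ((C * x) / L) + (C * x) / L ^ 2 +
      C2 * (κ0 / η1 ^ 2) * ((C * x) / L) := by
    simp only [L9.Lc_Bad, sum_add_distrib]
    have i1 : ∑ c ∈ Gd, Lc a b x1 x c (gp z y) ≤ ∑ c ∈ Icc 1 C, Lc a b x1 x c (gp z y) :=
      sum_le_sum_of_subset_of_nonneg hGd fun c _ _ => hgpn c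
    have i2 : ∑ c ∈ Gd, Lc a b x1 x c (sqd z) ≤ ∑ c ∈ Icc 1 C, Lc a b x1 x c (sqd z) :=
      sum_le_sum_of_subset_of_nonneg hGd fun c _ _ => hsqn c
    linarith
  have hLsB0 : 0 ≤ Ls a b x1 x (Bad z y Q K zs) := L9.Ls_nonneg _ _ _ _ _ (Pt.Bad_nonneg z y Q K zs)
  have hGdc : (#Gd : ℝ) ≤ C := by
    have := card_le_card hGd
    rw [Nat.card_Icc] at this
    exact_mod_cast (by omega : #Gd ≤ C)
  have hbs : (C : ℝ) * Ls a b x1 x (Bad z y Q K zs) ≤ C3 * (2 * ε2 / (η1 / 2) ^ 2) * ((C * x) / L) + (C * x) / L ^ 2 +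
      C2 * (κ0 / η1 ^ 2) * ((C * x) / L) := by
    have := hlsbad b hbX x1 hx1 hxR
    calc (C : ℝ) * Ls a b x1 x (Bad z y Q K zs)
        ≤ C * (C3 * (2 * ε2 / (η1 / 2) ^ 2) * (x / L) + x / L ^ 2 + C2 * (κ0 / η1 ^ 2) * (x / L)) :=
          mul_le_mul_of_nonneg_left this (Nat.cast_nonneg _)
      _ = _ := by ring
  -- the sum
  have hcmp : ∀ c ∈ Gd, |Phi a b x1 x c w G| ≤ |Phi a b x1 x c w (fun N => Sv g z U y K zs N + Lt z y l N)| +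
      M0 * Lc a b x1 x c (Bad z y Q K zs) + K1 * (M0 * Ls a b x1 x (Bad z y Q K zs)) := by
    intro c hc
    have hcI := hGd hc
    have h := L9.Phi_compare a b x1 x c w (fun N => Sv g z U y K zs N + Lt z y l N) G (Bad z y Q K zs) M0 hM0p.le
      (Pt.Bad_nonneg z y Q K zs) (fun n hn => hpt2 _ (hfv c hcI n hn).1 (hfv c hcI n hn).2) (fun N hN => by
        rw [mem_Ioc] at hN
        exact hpt2 N hN.1 (by omega))
    have h3 := hGd3 c hc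
    rw [← hwdef] at h3
    have h4 : Vc a b c w / V1 w * (M0 * Ls a b x1 x (Bad z y Q K zs)) ≤ K1 * (M0 * Ls a b x1 x (Bad z y Q K zs)) :=
      mul_le_mul_of_nonneg_right h3 (by positivity)
    linarith
  have hsum : ∑ c ∈ Gd, |Phi a b x1 x c w G| ≤
      ∑ c ∈ Gd, |Phi a b x1 x c w (T1 z U g)| +
      ∑ i ∈ range K, (∑ c ∈ Gd, |Phi a b x1 x c w (T2 z U y (alg g (zs i) (zs (i + 1)) U) (rg (zs (i + 1))))| +
        ∑ c ∈ Gd, |Phi a b x1 x c w (T2 z U y (rg (zs (i + 1))) (alg g (zs i) (zs (i + 1)) U))|) +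
      ∑ c ∈ Gd, |Phi a b x1 x c w (Lt z y l)| + M0 * ∑ c ∈ Gd, Lc a b x1 x c (Bad z y Q K zs) +
      K1 * (M0 * (C * Ls a b x1 x (Bad z y Q K zs))) := by
    have e1 : ∑ i ∈ range K, (∑ c ∈ Gd, |Phi a b x1 x c w (T2 z U y (alg g (zs i) (zs (i + 1)) U) (rg (zs (i + 1))))| +
        ∑ c ∈ Gd, |Phi a b x1 x c w (T2 z U y (rg (zs (i + 1))) (alg g (zs i) (zs (i + 1)) U))|) =
        ∑ c ∈ Gd, ∑ i ∈ range K, (|Phi a b x1 x c w (T2 z U y (alg g (zs i) (zs (i + 1)) U) (rg (zs (i + 1))))| +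
          |Phi a b x1 x c w (T2 z U y (rg (zs (i + 1))) (alg g (zs i) (zs (i + 1)) U))|) := by
      rw [sum_comm]
      apply sum_congr rfl
      intro i _
      rw [sum_add_distrib]
    have e2 : ∑ c ∈ Gd, K1 * (M0 * Ls a b x1 x (Bad z y Q K zs)) ≤ K1 * (M0 * (C * Ls a b x1 x (Bad z y Q K zs))) := by
      rw [sum_const, nsmul_eq_mul]
      calc (#Gd : ℝ) * (K1 * (M0 * Ls a b x1 x (Bad z y Q K zs)))
          ≤ C * (K1 * (M0 * Ls a b x1 x (Bad z y Q K zs))) := by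
            apply mul_le_mul_of_nonneg_right hGdc
            have : 0 ≤ K1 := by linarith
            positivity
        _ = _ := by ring
    rw [e1]
    refine le_trans ?_ (add_le_add_right e2 _)
    rw [mul_sum, ← sum_add_distrib, ← sum_add_distrib, ← sum_add_distrib, ← sum_add_distrib]
    apply sum_le_sum
    intro c hc
    have h1 := hcmp c hc
    have h2 := Phi_Sv a b x1 x c w g z U y K zs
    rw [L9.Phi_add] at h1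
    have h3 := abs_add_le (Phi a b x1 x c w (Sv g z U y K zs)) (Phi a b x1 x c w (Lt z y l))
    linarith
  rw [← hwdef, ← hL]
  refine hsum.trans ?_
  have hLt := sum_Phi_Lt a b x1 x w z y Gd (C * x / L ^ 2) M l (by
    intro t ht
    obtain ⟨t1, t2, t3, t4, t5⟩ := hl t ht
    exact ⟨t1, hT2 _ _ _ t3 t4 (hEq _ (t2.mono (by omega))) (hEq _ (t5.mono (by omega)))⟩)
  have hLt2 : ∑ c ∈ Gd, |Phi a b x1 x c w (Lt z y l)| ≤ (n * M : ℝ) * (C * x / L ^ 2) := by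
    refine hLt.trans ?_
    have h1 : (l.length : ℝ) ≤ n := by exact_mod_cast hln
    calc (l.length : ℝ) * (M * (C * x / L ^ 2)) ≤ n * (M * (C * x / L ^ 2)) :=
          mul_le_mul_of_nonneg_right h1 (by positivity)
      _ = _ := by ring
  refine fin_ineqG κ L (C * x) M0 K1 (C3 * (2 * ε2 / (η1 / 2) ^ 2)) (C2 * (κ0 / η1 ^ 2)) (n * M) K _ _ _ _ _ hκ.le hLp
    (by positivity) hM0p.le hK1 hε22 hκ02 hT1 ?_ hLt2 hbc hbs ?_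
  · calc ∑ i ∈ range K, (∑ c ∈ Gd, |Phi a b x1 x c w (T2 z U y (alg g (zs i) (zs (i + 1)) U) (rg (zs (i + 1))))| +
        ∑ c ∈ Gd, |Phi a b x1 x c w (T2 z U y (rg (zs (i + 1))) (alg g (zs i) (zs (i + 1)) U))|)
        ≤ ∑ i ∈ range K, (2 * ((C : ℝ) * x / L ^ 2)) := by
          apply sum_le_sum
          intro i _
          have k1 := hEq _ (Ok_alg hM hg1 hg3 (zs i) (zs (i + 1)) U)
          have k2 := hEq _ ((Ok_rg (zs (i + 1))).mono (by omega : 1 ≤ 2 * M))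
          have := hT2 U _ _ le_rfl hUy k1 k2
          have := hT2 U _ _ le_rfl hUy k2 k1
          linarith
      _ = (K : ℝ) * (2 * ((C : ℝ) * x / L ^ 2)) := by rw [sum_const, card_range, nsmul_eq_mul]
  · rw [div_le_iff₀ hκ] at hLa
    linarith

end Pool.Agent.H568.LB
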