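import Mathlib
import Pool.Agent.H568.LB.Stm
import Pool.Agent.H568.Mn7

/-!
The main term of what is lost.
-/

set_option autoImplicit false

namespace Pool.Agent.H568.LB

open Finset Filter Topology Pool.Agent.N792 Pool.Agent.N791.U Pool.Agent.N792.RX5

lemma okl_sum {m : ℕ} {l : List ℕ} (h : okl m l = true) : 10000 * (l.sum * (l.length + 1)) <
    l.length * (20001 * m + 10000 * (l.length + 1)) + 1 := by
  unfold okl at h
  rw [Bool.and_eq_true, decide_eq_true_eq, decide_eq_true_eq] at h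
  obtain ⟨h1, h2⟩ := h
  have h3 : l.sum ≤ l.length * l.headD 0 := by
    have h4 : ∀ x ∈ l, x ≤ l.headD 0 := by
      intro x hx
      cases l with
      | nil => simp at hx
      | cons y t =>
        rw [List.headD_cons]
        rcases List.mem_cons.1 hx with rfl | h5
        · exact le_rfl
        · exact (List.pairwise_cons.1 h1).1 x h5
    have := List.sum_le_card_nsmul l (l.headD 0) h4
    simpa using this
  have h5 : l.length * (10000 * (l.sum + l.headD 0)) ≤ l.length * (20001 * m + 10000 * (l.length + 1)) :=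
    Nat.mul_le_mul_left _ h2.le
  have h6 : 10000 * (l.sum * (l.length + 1)) ≤ l.length * (10000 * (l.sum + l.headD 0)) := by nlinarith
  omega

lemma wr_okl {m r : ℕ} {l : List ℕ} (h : wr m r l ≠ 0) : okl m l = true := by
  by_contra hc
  apply h
  unfold wr wF wE wG wD
  split_ifs <;> rfl

lemma supp (m r k : ℕ) (h : (m = 1200 ∧ k = 2) ∨ (m = 240 ∧ k = 3) ∨ (m = 120 ∧ k = 4) ∨ (m = 60 ∧ k = 5) ∨ (m = 60 ∧ k = 6)) :
    ∀ l : List ℕ, l.length = k → wr m r l ≠ 0 → 10000 * l.sum < 19999 * m := by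
  intro l hl hw
  have h1 := okl_sum (wr_okl hw)
  rw [hl] at h1
  rcases h with ⟨rfl, rfl⟩ | ⟨rfl, rfl⟩ | ⟨rfl, rfl⟩ | ⟨rfl, rfl⟩ | ⟨rfl, rfl⟩ <;> omega

/-- the part of the loss for `r` prime factors -/
noncomputable def Wp (Q U V V1 r N : ℕ) : ℝ := if w N = r then W5 Q U V V1 N else 0

/-- the main term of the part for `r` prime factors -/
lemma ls_part (hL : S_LST) (hS : S_SRT) (hW : S_WB) (a : ℤ) (ha : 0 < a) (Λ : ℝ) (hΛ : 1 ≤ Λ) (R : ℕ) (η : ℝ) (hη : 0 < η)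
    (m a0 a1 r k Nb : ℕ) (τ : ℝ) (hm : 0 < m) (ha0 : 1 ≤ a0) (h4 : 4 * a0 = m) (hu : (10001 / 10000 : ℝ) * m ≤ a1)
    (hr3 : 3 ≤ r) (hr7 : r ≤ 7) (hk : k + 1 = r)
    (hs : (m = 1200 ∧ k = 2) ∨ (m = 240 ∧ k = 3) ∨ (m = 120 ∧ k = 4) ∨ (m = 60 ∧ k = 5) ∨ (m = 60 ∧ k = 6))
    (hN : cs a0 a1 (fun l => wr m r l * gN m l.sum) k [] ≤ Nb) (hτ : (Nb : ℝ) / 10 ^ (8 * k + 6) ≤ τ) :
    ∀ᶠ x : ℕ in atTop, ∀ b : ℤ, (b : ℝ) ^ 2 ≤ Λ * x → ∀ x1 x2 : ℕ, x1 < x2 → x2 ≤ x → x ≤ R * x1 →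
    ∀ Q U V V1 : ℕ, (x : ℝ) ^ (1 / 4 : ℝ) ≤ Q →
    (x : ℝ) ^ (7 / 8 - 1 / 10000 : ℝ) ≤ U → (U : ℝ) ≤ (x : ℝ) ^ (7 / 8 : ℝ) → (x : ℝ) ^ (9 / 8 : ℝ) ≤ V →
    (V1 : ℝ) ≤ (x : ℝ) ^ (7 / 8 + 1 / 10000 : ℝ) →
    Ls a b x1 x2 (Wp Q U V V1 r) ≤ τ * (((x2 : ℝ) - x1) / Real.log x) + η * (x / Real.log x) := by
  filter_upwards [hL a Λ R m a0 a1 k Nb (10001 / 10000) τ η (wr m r) ha hΛ hm ha0 h4 hu (supp m r k hs) hN hτ hη,
    hW hS m r hm hr3 hr7] with x hx hw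
  intro b hb x1 x2 h12 h2x hxR Q U V V1 hQ hU1 hU2 hV hV1
  refine hx b hb x1 x2 h12 h2x hxR Q hQ (Wp Q U V V1 r) ?_
  intro N hN0 hN1 hN2 hF
  have h1 : w N = r := by
    by_contra hc
    unfold Wp at hF
    rw [if_neg hc] at hF
    exact lt_irrefl _ hF
  have h2 : Wp Q U V V1 r N = W5 Q U V V1 N := by unfold Wp; rw [if_pos h1]
  rw [h2] at hF ⊢
  have h3 : Squarefree N ∧ Rough Q N := by
    by_contra hc
    unfold W5 at hF
    rw [if_neg (by tauto)] at hF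
    exact lt_irrefl _ hF
  obtain ⟨t, t1, t2⟩ := hw Q U V V1 hQ hU1 hU2 hV hV1 N hN0 hN1 hN2 h3.1 h3.2 h1
  exact ⟨t, by omega, t2⟩

/-- the loss of the numbers with at most seven prime factors -/
noncomputable def Wt (Q U V V1 N : ℕ) : ℝ :=
  Wp Q U V V1 3 N + Wp Q U V V1 4 N + Wp Q U V V1 5 N + Wp Q U V V1 6 N + Wp Q U V V1 7 N

lemma W5_le_Wt {Q U V V1 N : ℕ} (hN : N < Q ^ 8) : W5 Q U V V1 N = Wt Q U V V1 N := by
  unfold Wt
  by_cases h : Squarefree N ∧ Rough Q N ∧ 3 ≤ w N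
  · have hwp := w_pow h.2.1
    have hw8 : w N < 8 := by
      by_contra hc
      push Not at hc
      have h5 : (Q + 1) ^ 8 ≤ (Q + 1) ^ w N := Nat.pow_le_pow_right (by omega) hc
      have h6 : Q ^ 8 ≤ (Q + 1) ^ 8 := Nat.pow_le_pow_left (by omega) 8
      omega
    unfold Wp
    rcases (by omega : w N = 3 ∨ w N = 4 ∨ w N = 5 ∨ w N = 6 ∨ w N = 7) with h1 | h1 | h1 | h1 | h1 <;> simp [h1]
  · have h0 : W5 Q U V V1 N = 0 := by unfold W5; rw [if_neg h]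
    unfold Wp
    rw [h0]
    simp

lemma wr3 (m : ℕ) (l : List ℕ) : wr m 3 l = wF m l := by simp [wr]
lemma wr4 (m : ℕ) (l : List ℕ) : wr m 4 l = wD m l := by simp [wr]
lemma wr5 (m : ℕ) (l : List ℕ) : wr m 5 l = wE m l := by simp [wr]
lemma wr6 (m : ℕ) (l : List ℕ) : wr m 6 l = wD m l := by simp [wr]
lemma wr7 (m : ℕ) (l : List ℕ) : wr m 7 l = wG m l := by simp [wr]

/-- **what is lost** -/
theorem ls_Wt (hL : S_LST) (hS : S_SRT) (hW : S_WB) (h3 : S_N3) (h4 : S_N4) (h5 : S_N5) (h6 : S_N6) (h7 : S_N7)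
    (a : ℤ) (ha : 0 < a) (Λ : ℝ) (hΛ : 1 ≤ Λ) (R : ℕ) (η : ℝ) (hη : 0 < η) :
    ∀ᶠ x : ℕ in atTop, ∀ b : ℤ, (b : ℝ) ^ 2 ≤ Λ * x → ∀ x1 x2 : ℕ, x1 < x2 → x2 ≤ x → x ≤ R * x1 →
    ∀ Q U V V1 : ℕ, (x : ℝ) ^ (1 / 4 : ℝ) ≤ Q →
    (x : ℝ) ^ (7 / 8 - 1 / 10000 : ℝ) ≤ U → (U : ℝ) ≤ (x : ℝ) ^ (7 / 8 : ℝ) → (x : ℝ) ^ (9 / 8 : ℝ) ≤ V →
    (V1 : ℝ) ≤ (x : ℝ) ^ (7 / 8 + 1 / 10000 : ℝ) →
    Ls a b x1 x2 (Wt Q U V V1) ≤ 9 / 20 * (((x2 : ℝ) - x1) / Real.log x) + η * (x / Real.log x) := by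
  have e3 := ls_part hL hS hW a ha Λ hΛ R (η / 5) (by positivity) 1200 300 1201 3 2 (3077 * 10 ^ 18) (3077 / 10000) (by norm_num)
    (by norm_num) (by norm_num) (by norm_num) (by norm_num) (by norm_num) (by norm_num) (by norm_num)
    (by simp only [wr3]; exact h3) (by norm_num)
  have e4 := ls_part hL hS hW a ha Λ hΛ R (η / 5) (by positivity) 240 60 241 4 3 (899 * 10 ^ 26) (899 / 10000) (by norm_num)
    (by norm_num) (by norm_num) (by norm_num) (by norm_num) (by norm_num) (by norm_num) (by norm_num)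
    (by simp only [wr4]; exact h4) (by norm_num)
  have e5 := ls_part hL hS hW a ha Λ hΛ R (η / 5) (by positivity) 120 30 121 5 4 (464 * 10 ^ 34) (464 / 10000) (by norm_num)
    (by norm_num) (by norm_num) (by norm_num) (by norm_num) (by norm_num) (by norm_num) (by norm_num)
    (by simp only [wr5]; exact h5) (by norm_num)
  have e6 := ls_part hL hS hW a ha Λ hΛ R (η / 5) (by positivity) 60 15 61 6 5 (33 * 10 ^ 42) (33 / 10000) (by norm_num)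
    (by norm_num) (by norm_num) (by norm_num) (by norm_num) (by norm_num) (by norm_num) (by norm_num)
    (by simp only [wr6]; exact h6) (by norm_num)
  have e7 := ls_part hL hS hW a ha Λ hΛ R (η / 5) (by positivity) 60 15 61 7 6 (93 * 10 ^ 49) (93 / 100000) (by norm_num)
    (by norm_num) (by norm_num) (by norm_num) (by norm_num) (by norm_num) (by norm_num) (by norm_num)
    (by simp only [wr7]; exact h7) (by norm_num)
  filter_upwards [e3, e4, e5, e6, e7, eventually_ge_atTop 2] with x k3 k4 k5 k6 k7 hx2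
  intro b hb x1 x2 h12 h2x hxR Q U V V1 hQ hU1 hU2 hV hV1
  have hL : 0 < Real.log x := Real.log_pos (by exact_mod_cast (by omega : 1 < x))
  have k3 := k3 b hb x1 x2 h12 h2x hxR Q U V V1 hQ hU1 hU2 hV hV1
  have k4 := k4 b hb x1 x2 h12 h2x hxR Q U V V1 hQ hU1 hU2 hV hV1
  have k5 := k5 b hb x1 x2 h12 h2x hxR Q U V V1 hQ hU1 hU2 hV hV1
  have k6 := k6 b hb x1 x2 h12 h2x hxR Q U V V1 hQ hU1 hU2 hV hV1
  have k7 := k7 b hb x1 x2 h12 h2x hxR Q U V V1 hQ hU1 hU2 hV hV1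
  have e : Ls a b x1 x2 (Wt Q U V V1) = Ls a b x1 x2 (Wp Q U V V1 3) + Ls a b x1 x2 (Wp Q U V V1 4) +
      Ls a b x1 x2 (Wp Q U V V1 5) + Ls a b x1 x2 (Wp Q U V V1 6) + Ls a b x1 x2 (Wp Q U V V1 7) := by
    unfold Wt Ls
    simp only [add_mul, sum_add_distrib]
  rw [e]
  have h12' : (x1 : ℝ) < x2 := by exact_mod_cast h12
  have hD : 0 ≤ ((x2 : ℝ) - x1) / Real.log x := div_nonneg (by linarith) hL.le
  linarith

end Pool.Agent.H568.LB
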