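import Mathlib
import Pool.Agent.H568.LB.La5
import Pool.Agent.H568.LB.Eq5
import Pool.Agent.H568.LB.Ls5
import Pool.Agent.H568.CnG

/-!
The minorant for `C ≥ x^(5/8+ε)`.
-/

set_option autoImplicit false

namespace Pool.Agent.H568.LB

open Finset Filter Topology Pool.Agent.N792 Pool.Agent.N791.U

theorem low5 (hG5 : S_G5) (hSVQ : S_SVQ) (hMU : S_MU) (hT2S : S_T2S) (hA5 : S_A5) (hNR : S_NR) (hPAR : S_PAR)
    (hLST : S_LST) (hSRT : S_SRT) (hWB : S_WB) (h3 : S_N3) (h4 : S_N4) (h5 : S_N5) (h6 : S_N6) (h7 : S_N7)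
    (a : ℤ) (ha : 0 < a) (Λ : ℝ) (hΛ : 1 ≤ Λ) (hG : LamG5 a Λ) : LowP a Λ (5 / 8) (9 / 20) := by
  obtain ⟨As, hG⟩ := hG
  refine ⟨As, fun E R ε κ K1 hε hκ hK1 => ?_⟩
  obtain ⟨ε0, hε0, hε0ε, hε03⟩ : ∃ ε0 : ℝ, 0 < ε0 ∧ ε0 ≤ ε ∧ ε0 ≤ 1 / 10000 :=
    ⟨min ε (1 / 10000), by positivity, min_le_left _ _, min_le_right _ _⟩
  obtain ⟨η1, e2, D, c0, A, K, x0, hη1, hη12, he2, he22, he23, hD1, hc0, hA, hG⟩ :=
    hG E R 12 3 (5 / 8) ε0 (κ / 2) K1 (by norm_num) hε0 (by linarith) (by positivity) hK1 (by norm_num)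
  obtain ⟨c0', A', hc0', hA', X0, hX0⟩ := range_bdU a ha Λ hΛ R
  have hev := (hPAR (ε0 / 2) e2 (min c0 c0') (max A A') (by positivity) (by linarith) he2 (by linarith) (lt_min hc0 hc0')
    (le_max_of_le_left hA)).and
    ((ls_Wt hLST hSRT hWB h3 h4 h5 h6 h7 a ha Λ hΛ R (κ / 2) (by positivity)).and (eventually_ge_atTop ⌈max A A'⌉₊))
  obtain ⟨xe, hxe⟩ := eventually_atTop.1 hev
  refine ⟨η1, hη1, hη12, max (max x0 X0) (max xe 2), ?_⟩
  intro x hx J hz1 hz2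
  obtain ⟨⟨U, y, Q, V, V1, hU1, hQU, hUV1, hVy, hyhi, hylo, hUlo, hUhi, hQlo, hQhi, hV1hi, hVlo, hUV, hQQ, hyy, hQ8, hUUQ,
    hVVQ, hyQ4⟩, hW1, hAx⟩ := hxe x (by omega)
  have hx2 : 2 ≤ x := by omega
  have hxr : (1 : ℝ) ≤ x := by exact_mod_cast (by omega : 1 ≤ x)
  have hx2' : (0 : ℝ) ≤ (x : ℝ) ^ 2 := by positivity
  obtain ⟨hDv, hG⟩ := hG x (by omega) J hz1 hz2
  obtain ⟨zs, h0, hK, hm, hBad, hmain⟩ := hG U y Q hU1 (hUV1.trans hVy) hyhi hylo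
    ((Real.rpow_le_rpow_of_exponent_le hxr (by linarith)).trans hUlo)
    (hUhi.trans (Real.rpow_le_rpow_of_exponent_le hxr (by norm_num))) hQlo hQhi hQQ
  obtain ⟨z, hz⟩ : ∃ z : ℕ, z = 2 ^ 2 ^ J := ⟨_, rfl⟩
  rw [← hz] at h0 hBad hmain hDv
  have hQ8' : ∀ N : ℕ, (N : ℝ) ≤ max A A' * (x : ℝ) ^ 2 → N < Q ^ 8 := by
    intro N hN2
    have : (N : ℝ) < ((Q ^ 8 : ℕ) : ℝ) := lt_of_le_of_lt hN2 hQ8
    exact_mod_cast this
  -- the pointwise bounds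
  have hptw : ∀ N : ℕ, min c0 c0' * (x : ℝ) ^ 2 < N → (N : ℝ) ≤ max A A' * (x : ℝ) ^ 2 →
      (Rough z N → (#N.divisors : ℝ) ≤ D) →
      |H5 z U y Q V V1 K zs N - min (H5 z U y Q V V1 K zs N) (pi0 N)| ≤ 12 * D ^ 2 * Bad z y Q K zs N ∧
      pi0 N - W5 Q U V V1 N - 12 * D ^ 2 * Bad z y Q K zs N ≤ min (H5 z U y Q V V1 K zs N) (pi0 N) := by
    intro N hN1 hN2 hND
    refine pt5 hG5 hSVQ hMU hT2S hA5 hNR z U y Q V V1 K N zs D hU1 hQU hUV1 hVy h0 hK hm ?_ (hQ8' N hN2) ?_ ?_ ?_ ?_ hND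
    · have : ((y * y : ℕ) : ℝ) < N := lt_of_le_of_lt hyy hN1
      exact_mod_cast this
    · have : ((U * U * Q : ℕ) : ℝ) < N := lt_of_le_of_lt hUUQ hN1
      exact_mod_cast this
    · have : ((U * V : ℕ) : ℝ) < N := lt_of_le_of_lt hUV hN1
      have : U * V < N := by exact_mod_cast this
      exact this.le
    · have : (N : ℝ) ≤ ((V1 * V1 * Q : ℕ) : ℝ) := hN2.trans hVVQ
      exact_mod_cast this
    · have : (N : ℝ) ≤ ((y * Q ^ 4 : ℕ) : ℝ) := hN2.trans hyQ4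
      exact_mod_cast this
  have hmm1 : min c0 c0' * (x : ℝ) ^ 2 ≤ c0 * (x : ℝ) ^ 2 := mul_le_mul_of_nonneg_right (min_le_left _ _) hx2'
  have hmm2 : min c0 c0' * (x : ℝ) ^ 2 ≤ c0' * (x : ℝ) ^ 2 := mul_le_mul_of_nonneg_right (min_le_right _ _) hx2'
  have hmm3 : A * (x : ℝ) ^ 2 ≤ max A A' * (x : ℝ) ^ 2 := mul_le_mul_of_nonneg_right (le_max_left _ _) hx2'
  have hmm4 : A' * (x : ℝ) ^ 2 ≤ max A A' * (x : ℝ) ^ 2 := mul_le_mul_of_nonneg_right (le_max_right _ _) hx2'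
  refine ⟨fun N => min (H5 z U y Q V V1 K zs N) (pi0 N), fun N => min_le_right _ _, ?_, ?_⟩
  · intro b hb x1 x2 h12 h2x hxR
    obtain ⟨hbx2, hr1, hr2⟩ := hX0 x (by omega) b hb x1 (by omega) hxR
    have hB := hBad b hb x1 x2 h12 h2x hxR
    have hW := hW1 b hb x1 x2 h12 h2x hxR Q U V V1 hQlo
      ((Real.rpow_le_rpow_of_exponent_le hxr (by linarith)).trans hUlo) hUhi hVlo hV1hi
    have hAx' : max A A' ≤ (x : ℝ) := (Nat.le_ceil _).trans (by exact_mod_cast hAx)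
    have hle : Ls a b x1 x2 pi0 - Ls a b x1 x2 (Wt Q U V V1) - 12 * D ^ 2 * Ls a b x1 x2 (Bad z y Q K zs) ≤
        Ls a b x1 x2 (fun N => min (H5 z U y Q V V1 K zs N) (pi0 N)) := by
      unfold Ls
      rw [mul_sum, ← sum_sub_distrib, ← sum_sub_distrib]
      apply sum_le_sum
      intro N hN
      rw [mem_Ioc] at hN
      have hw0 := Mtm.hw_nonneg a N
      have hF2 : Fn a b x2 ≤ Fn a b x := Mtm.Fn_mono ha (by omega) h2x
      have b1 : c0' * (x : ℝ) ^ 2 < N := lt_of_le_of_lt hr1 (by exact_mod_cast hN.1)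
      have b2 : (N : ℝ) ≤ A' * (x : ℝ) ^ 2 := by
        have : (N : ℝ) ≤ ((Fn a b x : ℕ) : ℝ) + x := by
          have h1 : (N : ℝ) ≤ ((Fn a b x : ℕ) : ℝ) := by exact_mod_cast hN.2.trans hF2
          have h2 : (0 : ℝ) ≤ x := Nat.cast_nonneg _
          linarith
        linarith
      have b1' : min c0 c0' * (x : ℝ) ^ 2 < N := by linarith
      have b2' : (N : ℝ) ≤ max A A' * (x : ℝ) ^ 2 := by linarith
      obtain ⟨l1, l2, l3⟩ := Lam.log_bd (lt_min hc0 hc0') (le_max_of_le_left hA) (by omega) b1'.le b2' hAx'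
      have := (hptw N b1' b2' (fun hr => hDv N l3 hr)).2
      rw [W5_le_Wt (hQ8' N b2')] at this
      calc pi0 N * hw a N - Wt Q U V V1 N * hw a N - 12 * D ^ 2 * (Bad z y Q K zs N * hw a N)
            = (pi0 N - Wt Q U V V1 N - 12 * D ^ 2 * Bad z y Q K zs N) * hw a N := by ring
          _ ≤ _ := mul_le_mul_of_nonneg_right this hw0
    push_cast at hB
    linarith
  · intro b x1 C Jw hbC hx1 hxR hC hCx hw1 hw2 Gd hGd hGd2 hGd3
    have hC' : (x : ℝ) ^ (5 / 8 + ε0) ≤ C := (Real.rpow_le_rpow_of_exponent_le hxr (by linarith)).trans hC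
    have := hmain (g5 Q U V) (fun N => min (H5 z U y Q V V1 K zs N) (pi0 N)) (l5 Q U V1) (hG5.1 Q U V)
      (fun k hk => hG5.2.1 Q U V k hk)
      (fun m hm => hG5.2.2.2.1 Q U V m hm) (by simp [l5]) (by
        intro t ht
        unfold l5 at ht
        simp only [List.mem_cons, List.not_mem_nil, or_false] at ht
        have o0 : Ok 12 pi0 := Ok_pi0.mono (by norm_num)
        have o2 : Ok 12 (pi2 Q) := (Ok_pi2 Q).mono (by norm_num)
        have o3 : Ok 12 (pin Q 3) := (Ok_pin Q 3).mono (by norm_num)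
        have o4 : Ok 12 (rg Q) := (Ok_rg Q).mono (by norm_num)
        have o5 : Ok 12 (mur Q) := (hG5.2.2.2.2 Q).mono (by norm_num)
        rcases ht with rfl | rfl | rfl
        · exact ⟨by norm_num, o5, le_rfl, hUV1.trans hVy, o4⟩
        · exact ⟨by norm_num, o0, hUV1, hVy, o2⟩
        · exact ⟨by norm_num, o2, le_rfl, hUV1.trans hVy, o3⟩) (by
        intro N hN1 hN2 hND
        have := (hptw N (by linarith) (by linarith) hND).1
        push_cast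
        exact this) b x1 C Jw hbC hx1 hxR hC' hCx hw1 hw2 Gd hGd (by rw [hz]; exact hGd2) hGd3
    refine this.trans ?_
    apply mul_le_mul_of_nonneg_right (by linarith)
    have : 0 ≤ Real.log x := Real.log_nonneg hxr
    positivity

end Pool.Agent.H568.LB
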