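import Mathlib
import Pool.Agent.H568.LB.Low5
import Pool.Agent.H568.LB.P.BLK
import Pool.Agent.H568.LB.P.TRB
import Pool.Agent.H568.LB.P.X3D
import Pool.Agent.H568.LB.P.G5
import Pool.Agent.H568.LB.P.SVQ
import Pool.Agent.H568.LB.P.MU
import Pool.Agent.H568.LB.P.T2S
import Pool.Agent.H568.LB.P.A5
import Pool.Agent.H568.LB.P.NR
import Pool.Agent.H568.LB.P.PAR
import Pool.Agent.H568.LB.P.ML
import Pool.Agent.H568.LB.P.TUP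
import Pool.Agent.H568.LB.P.LST
import Pool.Agent.H568.LB.P.SRT
import Pool.Agent.H568.LB.P.WB
import Pool.Agent.H568.LB.P.N3
import Pool.Agent.H568.LB.P.N4
import Pool.Agent.H568.LB.P.N5
import Pool.Agent.H568.LB.P.N6
import Pool.Agent.H568.LB.P.N7
import Pool.Agent.H568.TrG
import Pool.Agent.H568.Tr

/-!
The lower bound for `C ≥ x^(5/8+ε)`.
-/

set_option autoImplicit false

namespace Pool.Agent.H568.LB

open Finset Filter Topology Pool.Agent.N792 Pool.Agent.N791.U Pool.Agent.N792.Fn124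

theorem tTRB : S_TRB := PTRB.t_TRB q1 q4 PBLK.t_BLK

/-- the general combination -/
theorem lamG5_t (a : ℤ) (ha : 0 < a) (Λ : ℝ) (hΛ : 1 ≤ Λ) : LamG5 a Λ := by
  have r1 := t_R1U a ha Λ hΛ
  have r2 := r2U a ha
  have hLS := t_LSGU a ha Λ hΛ
  have hLC := t_LCGU a ha Λ hΛ r2
  exact lamG5 q1 q4 a ha Λ hΛ (fun R => PX3D.t_X3D (fun _ _ => tTRB) q1 q4 a Λ R ha hΛ) r1 r2 (t_MTU a ha Λ hΛ)
    (t_X2U a ha Λ hΛ r1 r2 hLS hLC) (t_X6U a ha Λ hΛ hLS hLC) (t_X7U a ha Λ hΛ)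

/-- **the minorant** -/
theorem low58 (a : ℤ) (ha : 0 < a) (Λ : ℝ) (hΛ : 1 ≤ Λ) : LowP a Λ (5 / 8) (9 / 20) :=
  low5 PG5.t_G5 PSVQ.t_SVQ PMU.t_MU PT2S.t_T2S PA5.t_A5 PNR.t_NR PPAR.t_PAR (PLST.t_LST PML.t_ML PTUP.t_TUP) PSRT.t_SRT PWB.t_WB
    PN3.t_N3 PN4.t_N4 PN5.t_N5 PN6.t_N6 PN7.t_N7 a ha Λ hΛ (lamG5_t a ha Λ hΛ)

/-- the lower bound with the factor `1 / 10`, `C ≥ x^(5/8+ε)`, uniformly in `b² ≤ Λ C` -/
theorem con58 (a : ℤ) (ha : 0 < a) (Λ : ℝ) (hΛ : 1 ≤ Λ) (ε η : ℝ) (hε : 0 < ε) (hη : 0 < η) :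
    ConclLP a Λ (5 / 8) (1 / 10) ε η := by
  have h := conLP a ha Λ hΛ (5 / 8) (9 / 20) (by norm_num) (by norm_num) (by norm_num) (low58 a ha Λ hΛ) ε η hε hη
  norm_num at h
  convert h using 1

end Pool.Agent.H568.LB
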