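import Mathlib
import Pool.Agent.H568.LB.LoN
import Pool.Agent.H568.TrN

/-!
Pairs `(b, c)`: the two bounds for `N ≤ H^(3-ε)` and the lower bound for `N ≤ H^(16/5-ε)` together.
-/

set_option autoImplicit false

namespace Pool.Agent.H568.LB

open Finset Filter Topology Pool.Agent.N792 Pool.Agent.N791.U Pool.Agent.N792.Fn124

/-- the bounds with the factors `κ1` and `κ2` (the upper bound only if `B`) -/
def QBk (a : ℤ) (κ1 κ2 : ℝ) (B : Prop) (θ η : ℝ) (x : ℕ) (b c : ℤ) : Prop :=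
  Admissible a b c → ∃ S : ℝ, 0 < S ∧ Tendsto (fun z => partialC a b c z) atTop (𝓝 S) ∧ θ ≤ eps a b * S * gcdProd a b ∧
    ∀ u v : ℕ, u ≤ v → v ≤ x →
      κ1 * (eps a b * S * gcdProd a b * ∑ m ∈ Ioc u v, 1 / Real.log ((a : ℝ) * m ^ 2 + b * m + c)) -
        η * (eps a b * S * gcdProd a b * x / Real.log x) ≤
      (#((Ioc u v).filter (fun m : ℕ => (fv a b c m).toNat.Prime)) : ℝ) ∧
      (B → (#((Ioc u v).filter (fun m : ℕ => (fv a b c m).toNat.Prime)) : ℝ) ≤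
      κ2 * (eps a b * S * gcdProd a b * ∑ m ∈ Ioc u v, 1 / Real.log ((a : ℝ) * m ^ 2 + b * m + c)) +
        η * (eps a b * S * gcdProd a b * x / Real.log x))

open Classical in
/-- **pairs** -/
theorem pair_both (a : ℤ) (ha : 0 < a) (ε η : ℝ) (hε : 0 < ε) (hη : 0 < η) :
    ∃ θ : ℝ, 0 < θ ∧ ∃ H0 : ℕ, ∀ H : ℕ, H0 ≤ H → ∀ N : ℕ, H ^ 2 ≤ N → (N : ℝ) ≤ (H : ℝ) ^ (16 / 5 - ε) →
    ∃ Ex ⊆ Icc (-(H : ℤ)) H ×ˢ Icc (-(H : ℤ)) H, (#Ex : ℝ) ≤ η * H ^ 2 ∧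
      ∀ q ∈ Icc (-(H : ℤ)) H ×ˢ Icc (-(H : ℤ)) H, q ∉ Ex →
        QBk a (if (N : ℝ) ≤ (H : ℝ) ^ (3 - ε) then 1 / 2 else 1 / 10) (5 / 3) ((N : ℝ) ≤ (H : ℝ) ^ (3 - ε)) θ η N q.1 q.2 := by
  obtain ⟨θ1, hθ1, H1, h1⟩ := low58_pair a ha ε η hε hη
  obtain ⟨θ2, hθ2, H2, h2⟩ := both_pair a ha (2 / 3) (1 / 2) (5 / 3) (by norm_num) (by norm_num) (by norm_num) (by norm_num)
    (by norm_num) (by norm_num) (fun Λ hΛ ε η hε hη => conL a ha Λ hΛ ε η hε hη)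
    (fun Λ hΛ ε η hε hη => conUp a ha Λ hΛ ε η hε hη) ε η hε hη
  refine ⟨min θ1 θ2, lt_min hθ1 hθ2, H1 + H2, fun H hH N hN1 hN2 => ?_⟩
  by_cases hc : (N : ℝ) ≤ (H : ℝ) ^ (3 - ε)
  · obtain ⟨Ex, k1, k2, k3⟩ := h2 H (by omega) N hN1 (by rw [show (2 : ℝ) / (2 / 3) = 3 by norm_num]; exact hc)
    refine ⟨Ex, k1, k2, fun q hq hqE hadm => ?_⟩
    obtain ⟨S, m1, m2, m3, m4⟩ := k3 q hq hqE hadm
    refine ⟨S, m1, m2, (min_le_right _ _).trans m3, fun u v huv hvx => ?_⟩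
    rw [if_pos hc]
    exact ⟨(m4 u v huv hvx).1, fun _ => (m4 u v huv hvx).2⟩
  · obtain ⟨Ex, k1, k2, k3⟩ := h1 H (by omega) N hN1 hN2
    refine ⟨Ex, k1, k2, fun q hq hqE hadm => ?_⟩
    obtain ⟨S, m1, m2, m3, m4⟩ := k3 q hq hqE hadm
    refine ⟨S, m1, m2, (min_le_left _ _).trans m3, fun u v huv hvx => ?_⟩
    rw [if_neg hc]
    exact ⟨m4 u v huv hvx, fun h => absurd h hc⟩

end Pool.Agent.H568.LB
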