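import Mathlib
import Pool.Agent.H568.LB.LoQ

/-!
Fixed `a, b`, almost all `|c| ≤ C`: the two bounds for `C ≥ x^(2/3+ε)` and the lower bound for `C ≥ x^(5/8+ε)` together.
-/

set_option autoImplicit false

namespace Pool.Agent.H568.LB

open Finset Filter Topology Pool.Agent.N792 Pool.Agent.N791.U Pool.Agent.N792.Fn124

/-- the two conclusions at `2/3` together, for every `ε > 0` -/
theorem both23_c (a : ℤ) (ha : 0 < a) (b : ℤ) (ε η : ℝ) (hε : 0 < ε) (hη : 0 < η) :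
    ∃ θ : ℝ, 0 < θ ∧ ∃ x0 : ℕ, ∀ x : ℕ, x0 ≤ x → ∀ C : ℕ, (x : ℝ) ^ (2 / 3 + ε) ≤ C → C ≤ x →
    ∃ Ex ⊆ Icc (-(C : ℤ)) C, (#Ex : ℝ) ≤ η * C ∧
      ∀ c ∈ Icc (-(C : ℤ)) C, c ∉ Ex → QTk a (1 / 2) (5 / 3) θ η x b c := by
  obtain ⟨ε0, hε0⟩ : ∃ ε0 : ℝ, ε0 = min ε (1 / 6) := ⟨_, rfl⟩
  have w1 : 0 < ε0 := by rw [hε0]; exact lt_min hε (by norm_num)
  have w2 : ε0 ≤ ε := by rw [hε0]; exact min_le_left _ _
  have w3 : ε0 ≤ 1 / 6 := by rw [hε0]; exact min_le_right _ _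
  obtain ⟨θ, hθ, x0, h⟩ := both_c a ha b (2 / 3) (1 / 2) (5 / 3) (by norm_num) (by norm_num) (by norm_num) (by norm_num)
    (by norm_num) (fun Λ hΛ ε η hε hη => conL a ha Λ hΛ ε η hε hη)
    (fun Λ hΛ ε η hε hη => conUp a ha Λ hΛ ε η hε hη) ε0 η w1 (by linarith) hη
  refine ⟨θ, hθ, x0 + 1, fun x hx C hC1 hC2 => h x (by omega) C ?_ hC2⟩
  have hxr : (1 : ℝ) ≤ x := by exact_mod_cast (by omega : 1 ≤ x)
  exact (Real.rpow_le_rpow_of_exponent_le hxr (by linarith)).trans hC1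

open Classical in
/-- **fixed `b`** -/
theorem fam_both (a : ℤ) (ha : 0 < a) (b : ℤ) (ε η : ℝ) (hε : 0 < ε) (hη : 0 < η) :
    ∃ θ : ℝ, 0 < θ ∧ ∃ x0 : ℕ, ∀ x : ℕ, x0 ≤ x → ∀ C : ℕ, (x : ℝ) ^ (5 / 8 + ε) ≤ C → C ≤ x →
    ∃ Ex ⊆ Icc (-(C : ℤ)) C, (#Ex : ℝ) ≤ η * C ∧
      ∀ c ∈ Icc (-(C : ℤ)) C, c ∉ Ex →
        QBk a (if (x : ℝ) ^ (2 / 3 + ε) ≤ C then 1 / 2 else 1 / 10) (5 / 3) ((x : ℝ) ^ (2 / 3 + ε) ≤ C) θ η x b c := by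
  obtain ⟨θ1, hθ1, x1, h1⟩ := low58_c a ha b ε η hε hη
  obtain ⟨θ2, hθ2, x2, h2⟩ := both23_c a ha b ε η hε hη
  refine ⟨min θ1 θ2, lt_min hθ1 hθ2, x1 + x2, fun x hx C hC1 hC2 => ?_⟩
  by_cases hc : (x : ℝ) ^ (2 / 3 + ε) ≤ C
  · obtain ⟨Ex, k1, k2, k3⟩ := h2 x (by omega) C hc hC2
    refine ⟨Ex, k1, k2, fun c hcI hcE hadm => ?_⟩
    obtain ⟨S, m1, m2, m3, m4⟩ := k3 c hcI hcE hadm
    refine ⟨S, m1, m2, (min_le_right _ _).trans m3, fun u v huv hvx => ?_⟩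
    rw [if_pos hc]
    exact ⟨(m4 u v huv hvx).1, fun _ => (m4 u v huv hvx).2⟩
  · obtain ⟨Ex, k1, k2, k3⟩ := h1 x (by omega) C hC1 hC2
    refine ⟨Ex, k1, k2, fun c hcI hcE hadm => ?_⟩
    obtain ⟨S, m1, m2, m3, m4⟩ := k3 c hcI hcE hadm
    refine ⟨S, m1, m2, (min_le_left _ _).trans m3, fun u v huv hvx => ?_⟩
    rw [if_neg hc]
    exact ⟨m4 u v huv hvx, fun h => absurd h hc⟩

end Pool.Agent.H568.LB
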