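import Mathlib
import Pool.Agent.H568.LB.LoN
import Pool.Agent.H568.Euler
import Pool.Agent.H568.Cuban

/-!
The lower bound at `5/8` for `x² + x + A` and `3 x² + 3 x + A`.
-/

set_option autoImplicit false

namespace Pool.Agent.H568.LB

open Finset Filter Topology Pool.Agent.N792 Pool.Agent.N791.U Pool.Agent.N792.Fn124

theorem euler_lo (ε η : ℝ) (hε : 0 < ε) (hη : 0 < η) : ∃ N0 : ℕ, ∀ N : ℕ, N0 ≤ N → ∀ H : ℕ,
    (N : ℝ) ^ (5 / 8 + ε) ≤ H → H ≤ N →
    ∃ Ex ⊆ (Icc 3 H).filter Odd, (#Ex : ℝ) ≤ η * H ∧ ∀ A ∈ (Icc 3 H).filter Odd, A ∉ Ex →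
      ∃ C : ℝ, 0 < C ∧ Tendsto (fun z : ℕ => partialC 1 1 (A : ℤ) z) atTop (𝓝 C) ∧
        ∀ n : ℕ, n ≤ N →
          1 / 10 * (C * (2 * ∫ t in (0 : ℝ)..n, fE A t)) - η * (C * (2 * ∫ t in (0 : ℝ)..N, fE A t)) ≤
            (#((range (n + 1)).filter (fun x : ℕ => (x ^ 2 + x + A).Prime)) : ℝ) := by
  classical
  obtain ⟨η1, hη1⟩ : ∃ η1 : ℝ, η1 = η / 12 := ⟨_, rfl⟩
  have hη10 : 0 < η1 := by rw [hη1]; positivity
  obtain ⟨θ, hθ, x0, h⟩ := low58_c 1 one_pos 1 ε η1 hε hη10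
  obtain ⟨x1, hx1⟩ := big_ratio ((2 / θ + 4) * (6 / η))
  refine ⟨x0 + x1 + 3, fun N hN H hH1 hH2 => ?_⟩
  obtain ⟨Ex, k1, k2, k3⟩ := h N (by omega) H hH1 hH2
  have k4 := hx1 N (by omega)
  have hN3 : (3 : ℝ) ≤ N := by exact_mod_cast (by omega : 3 ≤ N)
  have hlog : 0 < Real.log N := Real.log_pos (by linarith)
  refine ⟨((Icc 3 H).filter Odd).filter (fun A : ℕ => (A : ℤ) ∈ Ex), filter_subset _ _, ?_, ?_⟩
  · have h1 : #(((Icc 3 H).filter Odd).filter (fun A : ℕ => (A : ℤ) ∈ Ex)) ≤ #Ex := by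
      apply card_le_card_of_injOn (fun A : ℕ => (A : ℤ))
      · intro A hA
        exact (mem_filter.1 hA).2
      · intro A _ B _ hAB
        simpa using hAB
    have h2 : (#(((Icc 3 H).filter Odd).filter (fun A : ℕ => (A : ℤ) ∈ Ex)) : ℝ) ≤ #Ex := by exact_mod_cast h1
    have h3 : η1 * H ≤ η * H := mul_le_mul_of_nonneg_right (by rw [hη1]; linarith) (Nat.cast_nonneg _)
    linarith
  · intro A hA hAE
    rw [mem_filter, mem_Icc] at hA
    obtain ⟨⟨hA3, hAH⟩, hodd⟩ := hA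
    have hAE' : (A : ℤ) ∉ Ex := fun hh => hAE (mem_filter.2 ⟨mem_filter.2 ⟨mem_Icc.2 ⟨hA3, hAH⟩, hodd⟩, hh⟩)
    obtain ⟨S, m1, m2, m3, m4⟩ := k3 (A : ℤ) (mem_Icc.2 ⟨by omega, by exact_mod_cast hAH⟩) hAE' (adm_euler hA3 hodd)
    have he : eps 1 1 = 2 := by unfold eps; norm_num
    have hg : gcdProd 1 1 = 1 := by unfold gcdProd; simp
    rw [he, hg, mul_one] at m3
    refine ⟨S, m1, m2, fun n hn => ?_⟩
    have n1 := m4 0 n (Nat.zero_le _) hn
    rw [he, hg, mul_one] at n1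
    have es : ∑ m ∈ Ioc 0 n, 1 / Real.log (((1 : ℤ) : ℝ) * (m : ℝ) ^ 2 + ((1 : ℤ) : ℝ) * m + ((A : ℤ) : ℝ)) =
        ∑ m ∈ Ioc 0 n, fE A m := by
      refine sum_congr rfl fun m _ => ?_
      unfold fE
      push_cast
      rw [one_mul, one_mul]
    rw [es] at n1
    obtain ⟨s1, s2⟩ := sum_int (fE A) (fE_anti hA3) (fE_nonneg hA3) (fE_zero hA3) n
    have hL := int_lower hA3 (hAH.trans hH2)
    obtain ⟨I, hI⟩ : ∃ I : ℝ, I = ∫ t in (0 : ℝ)..n, fE A t := ⟨_, rfl⟩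
    obtain ⟨J, hJ⟩ : ∃ J : ℝ, J = ∫ t in (0 : ℝ)..N, fE A t := ⟨_, rfl⟩
    obtain ⟨T0, hT0⟩ : ∃ T0 : ℝ, T0 = ∑ m ∈ Ioc 0 n, fE A m := ⟨_, rfl⟩
    rw [← hT0, ← hI] at s1 s2
    rw [← hJ] at hL ⊢
    rw [← hI]
    rw [← hT0] at n1
    -- the counting functions
    have c1 : #((Ioc 0 n).filter (fun m : ℕ => (fv 1 1 (A : ℤ) m).toNat.Prime)) =
        #((Ioc 0 n).filter (fun x : ℕ => (x ^ 2 + x + A).Prime)) := by
      congr 1
      apply filter_congr
      intro m _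
      have : (fv 1 1 (A : ℤ) m).toNat = m ^ 2 + m + A := by
        unfold fv
        have : (1 : ℤ) * (m : ℤ) ^ 2 + 1 * m + A = ((m ^ 2 + m + A : ℕ) : ℤ) := by push_cast; ring
        rw [this, Int.toNat_natCast]
      rw [this]
    rw [c1] at n1
    have c2 : #((Ioc 0 n).filter (fun x : ℕ => (x ^ 2 + x + A).Prime)) ≤
        #((range (n + 1)).filter (fun x : ℕ => (x ^ 2 + x + A).Prime)) := by
      apply card_le_card
      apply filter_subset_filter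
      intro m hm
      rw [mem_Ioc] at hm
      rw [mem_range]
      omega
    have c3 : #((range (n + 1)).filter (fun x : ℕ => (x ^ 2 + x + A).Prime)) ≤
        #((Ioc 0 n).filter (fun x : ℕ => (x ^ 2 + x + A).Prime)) + 1 := by
      have : (range (n + 1)).filter (fun x : ℕ => (x ^ 2 + x + A).Prime) ⊆
          insert 0 ((Ioc 0 n).filter (fun x : ℕ => (x ^ 2 + x + A).Prime)) := by
        intro m hm
        rw [mem_filter, mem_range] at hm
        rw [mem_insert, mem_filter, mem_Ioc]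
        rcases Nat.eq_zero_or_pos m with h0 | h0
        · exact Or.inl h0
        · exact Or.inr ⟨⟨h0, by omega⟩, hm.2⟩
      exact (card_le_card this).trans (card_insert_le _ _)
    have c2' : (#((Ioc 0 n).filter (fun x : ℕ => (x ^ 2 + x + A).Prime)) : ℝ) ≤
        #((range (n + 1)).filter (fun x : ℕ => (x ^ 2 + x + A).Prime)) := by exact_mod_cast c2
    have c3' : (#((range (n + 1)).filter (fun x : ℕ => (x ^ 2 + x + A).Prime)) : ℝ) ≤
        #((Ioc 0 n).filter (fun x : ℕ => (x ^ 2 + x + A).Prime)) + 1 := by exact_mod_cast c3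
    obtain ⟨X, hX⟩ : ∃ X : ℝ, X = (N : ℝ) / Real.log N := ⟨_, rfl⟩
    rw [← hX] at hL k4
    have eX : 2 * S * (N : ℝ) / Real.log N = 2 * S * X := by rw [hX]; ring
    have eX' : η1 * (2 * S * (N : ℝ) / Real.log N) = η1 * (2 * S * X) := by rw [eX]
    rw [eX'] at n1
    -- the errors
    have q1 : η1 * (2 * S * X) ≤ η / 2 * (S * J) := by
      have : S * X ≤ S * (3 * J) := mul_le_mul_of_nonneg_left (by linarith) m1.le
      calc η1 * (2 * S * X) = η / 6 * (S * X) := by rw [hη1]; ring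
        _ ≤ η / 6 * (S * (3 * J)) := mul_le_mul_of_nonneg_left this (by positivity)
        _ = _ := by ring
    have q2 : 1 + 4 * S ≤ η / 2 * (S * J) := by
      have a1 : 1 ≤ 2 / θ * S := by
        rw [div_mul_eq_mul_div, le_div_iff₀ hθ]
        linarith
      have a2 : (2 / θ + 4) * (6 / η) ≤ 3 * J := by linarith
      have a3 : (2 / θ + 4) ≤ η / 2 * J := by
        have : (2 / θ + 4) * (6 / η) * (η / 6) ≤ 3 * J * (η / 6) := mul_le_mul_of_nonneg_right a2 (by positivity)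
        have e : (2 / θ + 4) * (6 / η) * (η / 6) = 2 / θ + 4 := by field_simp
        rw [e] at this
        linarith
      calc 1 + 4 * S ≤ 2 / θ * S + 4 * S := by linarith
        _ = (2 / θ + 4) * S := by ring
        _ ≤ η / 2 * J * S := mul_le_mul_of_nonneg_right a3 m1.le
        _ = _ := by ring
    have q3 : 0 ≤ η / 2 * (S * J) := by linarith [mul_pos hη10 m1]
    have q4 : S * T0 ≤ S * I := mul_le_mul_of_nonneg_left s1 m1.le
    have q5 : S * I ≤ S * (T0 + 1) := mul_le_mul_of_nonneg_left s2 m1.le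
    nlinarith


theorem cuban_lo (ε η : ℝ) (hε : 0 < ε) (hη : 0 < η) : ∃ N0 : ℕ, ∀ N : ℕ, N0 ≤ N → ∀ H : ℕ,
    (N : ℝ) ^ (5 / 8 + ε) ≤ H → H ≤ N →
    ∃ Ex ⊆ (Icc 5 H).filter (fun A => Nat.Coprime A 6), (#Ex : ℝ) ≤ η * H ∧
      ∀ A ∈ (Icc 5 H).filter (fun A => Nat.Coprime A 6), A ∉ Ex →
      ∃ C : ℝ, 0 < C ∧ Tendsto (fun z : ℕ => partialC 3 3 (A : ℤ) z) atTop (𝓝 C) ∧
        ∀ n : ℕ, n ≤ N →
          1 / 10 * (3 * C * ∫ t in (0 : ℝ)..n, fK A t) - η * (3 * C * ∫ t in (0 : ℝ)..N, fK A t) ≤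
            (#((Icc 1 n).filter (fun x : ℕ => (3 * x ^ 2 + 3 * x + A).Prime)) : ℝ) := by
  classical
  obtain ⟨η1, hη1⟩ : ∃ η1 : ℝ, η1 = η / 12 := ⟨_, rfl⟩
  have hη10 : 0 < η1 := by rw [hη1]; positivity
  obtain ⟨θ, hθ, x0, h⟩ := low58_c 3 (by norm_num) 3 ε η1 hε hη10
  obtain ⟨x1, hx1⟩ := big_ratio (6 * (6 / η))
  refine ⟨x0 + x1 + 7, fun N hN H hH1 hH2 => ?_⟩
  obtain ⟨Ex, k1, k2, k3⟩ := h N (by omega) H hH1 hH2
  have k4 := hx1 N (by omega)
  have hN3 : (3 : ℝ) ≤ N := by exact_mod_cast (by omega : 3 ≤ N)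
  have hlog : 0 < Real.log N := Real.log_pos (by linarith)
  refine ⟨((Icc 5 H).filter (fun A => Nat.Coprime A 6)).filter (fun A : ℕ => (A : ℤ) ∈ Ex), filter_subset _ _, ?_, ?_⟩
  · have h1 : #(((Icc 5 H).filter (fun A => Nat.Coprime A 6)).filter (fun A : ℕ => (A : ℤ) ∈ Ex)) ≤ #Ex := by
      apply card_le_card_of_injOn (fun A : ℕ => (A : ℤ))
      · intro A hA
        exact (mem_filter.1 hA).2
      · intro A _ B _ hAB
        simpa using hAB
    have h2 : (#(((Icc 5 H).filter (fun A => Nat.Coprime A 6)).filter (fun A : ℕ => (A : ℤ) ∈ Ex)) : ℝ) ≤ #Ex := by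
      exact_mod_cast h1
    have h3 : η1 * H ≤ η * H := mul_le_mul_of_nonneg_right (by rw [hη1]; linarith) (Nat.cast_nonneg _)
    linarith
  · intro A hA hAE
    have hAm := hA
    rw [mem_filter, mem_Icc] at hA
    obtain ⟨⟨hA5, hAH⟩, hco⟩ := hA
    have hA3 : 3 ≤ A := by omega
    have hAE' : (A : ℤ) ∉ Ex := fun hh => hAE (mem_filter.2 ⟨hAm, hh⟩)
    obtain ⟨S, m1, m2, m3, m4⟩ := k3 (A : ℤ) (mem_Icc.2 ⟨by omega, by exact_mod_cast hAH⟩) hAE' (adm_cuban hA3 hco)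
    have he : eps 3 3 = 2 := by unfold eps; norm_num
    rw [he, gcd_cuban] at m3
    refine ⟨S, m1, m2, fun n hn => ?_⟩
    have n1 := m4 0 n (Nat.zero_le _) hn
    rw [he, gcd_cuban] at n1
    have es : ∑ m ∈ Ioc 0 n, 1 / Real.log (((3 : ℤ) : ℝ) * (m : ℝ) ^ 2 + ((3 : ℤ) : ℝ) * m + ((A : ℤ) : ℝ)) =
        ∑ m ∈ Ioc 0 n, fK A m := by
      refine sum_congr rfl fun m _ => ?_
      unfold fK
      push_cast
      rfl
    rw [es] at n1
    obtain ⟨s1, s2⟩ := sum_int (fK A) (fK_anti hA3) (fK_nonneg hA3) (fK_zero hA3) n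
    have hL := int_lowerK hA3 (hAH.trans hH2) (by omega)
    obtain ⟨I, hI⟩ : ∃ I : ℝ, I = ∫ t in (0 : ℝ)..n, fK A t := ⟨_, rfl⟩
    obtain ⟨J, hJ⟩ : ∃ J : ℝ, J = ∫ t in (0 : ℝ)..N, fK A t := ⟨_, rfl⟩
    obtain ⟨T0, hT0⟩ : ∃ T0 : ℝ, T0 = ∑ m ∈ Ioc 0 n, fK A m := ⟨_, rfl⟩
    rw [← hT0, ← hI] at s1 s2
    rw [← hJ] at hL ⊢
    rw [← hI]
    rw [← hT0] at n1
    -- the counting functions
    have c1 : #((Ioc 0 n).filter (fun m : ℕ => (fv 3 3 (A : ℤ) m).toNat.Prime)) =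
        #((Icc 1 n).filter (fun x : ℕ => (3 * x ^ 2 + 3 * x + A).Prime)) := by
      rw [show Icc 1 n = Ioc 0 n from rfl]
      refine congrArg _ (filter_congr fun m _ => ?_)
      have : (fv 3 3 (A : ℤ) m).toNat = 3 * m ^ 2 + 3 * m + A := by
        unfold fv
        have : (3 : ℤ) * (m : ℤ) ^ 2 + 3 * m + A = ((3 * m ^ 2 + 3 * m + A : ℕ) : ℤ) := by push_cast; ring
        rw [this, Int.toNat_natCast]
      rw [this]
    rw [c1] at n1
    obtain ⟨X, hX⟩ : ∃ X : ℝ, X = (N : ℝ) / Real.log N := ⟨_, rfl⟩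
    rw [← hX] at hL k4
    have eX : 2 * S * (3 / 2) * (N : ℝ) / Real.log N = 3 * S * X := by rw [hX]; ring
    have eX' : η1 * (2 * S * (3 / 2) * (N : ℝ) / Real.log N) = η1 * (3 * S * X) := by rw [eX]
    rw [eX'] at n1
    -- the errors
    have q1 : η1 * (3 * S * X) ≤ η / 2 * (3 * S * J) := by
      have : S * X ≤ S * (3 * J) := mul_le_mul_of_nonneg_left (by linarith) m1.le
      calc η1 * (3 * S * X) = η / 4 * (S * X) := by rw [hη1]; ring
        _ ≤ η / 4 * (S * (3 * J)) := mul_le_mul_of_nonneg_left this (by positivity)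
        _ ≤ _ := by
          have : 0 ≤ η * (S * J) := by
            have hJ0 : 0 ≤ J := by linarith [show (0:ℝ) ≤ X by rw [hX]; positivity]
            positivity
          nlinarith
    have q2 : 6 * S ≤ η / 2 * (3 * S * J) := by
      have a3 : (6 : ℝ) ≤ η / 2 * J := by
        have : 6 * (6 / η) * (η / 6) ≤ 3 * J * (η / 6) := mul_le_mul_of_nonneg_right (by linarith) (by positivity)
        have e : 6 * (6 / η) * (η / 6) = 6 := by field_simp
        rw [e] at this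
        linarith
      calc 6 * S ≤ η / 2 * J * S := mul_le_mul_of_nonneg_right a3 m1.le
        _ ≤ _ := by
          have : 0 ≤ η / 2 * J * S := by
            have := mul_le_mul_of_nonneg_right a3 m1.le
            linarith
          linarith
    have q4 : S * T0 ≤ S * I := mul_le_mul_of_nonneg_left s1 m1.le
    have q5 : S * I ≤ S * (T0 + 1) := mul_le_mul_of_nonneg_left s2 m1.le
    nlinarith

end Pool.Agent.H568.LB
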