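import Mathlib
import Pool.Agent.H568.LB.LoN
import Pool.Agent.H568.Tri3

/-!
The lower bound at `5/8` for `k² + 3 k + c`: the ratio to the number of the primes.
-/

set_option autoImplicit false

namespace Pool.Agent.H568.LB

open Finset Filter Topology Pool.Agent.N792 Pool.Agent.N791.U Pool.Agent.N792.Fn124

/-- the number of the `1 ≤ k ≤ N` with `k² + 3 k + c` prime, against the number of the primes up to `N` -/
theorem three_lo (ε η : ℝ) (hε : 0 < ε) (hη : 0 < η) : ∃ N0 : ℕ, ∀ N : ℕ, N0 ≤ N → ∀ C : ℕ,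
    (N : ℝ) ^ (5 / 8 + ε) ≤ C → C ≤ N →
    ∃ Ex ⊆ (Icc 1 C).filter Odd, (#Ex : ℝ) ≤ η * C ∧ ∀ c ∈ (Icc 1 C).filter Odd, c ∉ Ex →
      ∃ S : ℝ, 0 < S ∧ Tendsto (fun z : ℕ => partialC 1 3 (c : ℤ) z) atTop (𝓝 S) ∧
        (1 / 10 - η) * S ≤ (#((Icc 1 N).filter (fun k : ℕ => (k ^ 2 + 3 * k + c).Prime)) : ℝ) / Nat.primeCounting N := by
  classical
  obtain ⟨δ, hδ⟩ : ∃ δ : ℝ, δ = min (η / 20) (1 / 20) := ⟨_, rfl⟩
  have hδ0 : 0 < δ := by rw [hδ]; positivity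
  have hδ1 : δ ≤ η / 20 := by rw [hδ]; exact min_le_left _ _
  have hδ2 : δ ≤ 1 / 20 := by rw [hδ]; exact min_le_right _ _
  obtain ⟨θ, hθ, x0, h⟩ := low58_c 1 one_pos 3 ε δ hε hδ0
  obtain ⟨x1, hx1⟩ := li_asym 1 one_pos 3 δ hδ0
  obtain ⟨x2, hx2⟩ := eventually_atTop.1
    ((Metric.tendsto_nhds.1 Pool.Agent.H706R2.PS.T12bh.pnt_nat) δ hδ0)
  refine ⟨x0 + x1 + x2 + 3, fun N hN C hC1 hC2 => ?_⟩
  obtain ⟨Ex, k1, k2, k3⟩ := h N (by omega) C hC1 hC2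
  have hN3 : (3 : ℝ) ≤ N := by exact_mod_cast (by omega : 3 ≤ N)
  have hlog : 0 < Real.log N := Real.log_pos (by linarith)
  obtain ⟨X, hX⟩ : ∃ X : ℝ, X = (N : ℝ) / Real.log N := ⟨_, rfl⟩
  have hX0 : 0 < X := by rw [hX]; positivity
  have hpi := hx2 N (by omega)
  rw [Real.dist_eq] at hpi
  obtain ⟨π, hπ⟩ : ∃ π : ℝ, π = (Nat.primeCounting N : ℝ) := ⟨_, rfl⟩
  rw [← hπ] at hpi ⊢
  have hpi1 : |π / X - 1| < δ := by
    have e : π * Real.log N / N = π / X := by rw [hX]; field_simp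
    rw [← e]
    exact hpi
  have p1 : (1 - δ) * X ≤ π := by
    have := (abs_lt.1 hpi1).1
    have h2 : 1 - δ ≤ π / X := by linarith
    rwa [le_div_iff₀ hX0] at h2
  have p2 : π ≤ (1 + δ) * X := by
    have := (abs_lt.1 hpi1).2
    have h2 : π / X ≤ 1 + δ := by linarith
    rwa [div_le_iff₀ hX0] at h2
  have hπ0 : 0 < π := lt_of_lt_of_le (mul_pos (by linarith) hX0) p1
  refine ⟨((Icc 1 C).filter Odd).filter (fun c : ℕ => (c : ℤ) ∈ Ex), filter_subset _ _, ?_, ?_⟩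
  · have h1 : #(((Icc 1 C).filter Odd).filter (fun c : ℕ => (c : ℤ) ∈ Ex)) ≤ #Ex := by
      apply card_le_card_of_injOn (fun c : ℕ => (c : ℤ))
      · intro c hc
        exact (mem_filter.1 hc).2
      · intro c _ d _ hcd
        simpa using hcd
    have h2 : (#(((Icc 1 C).filter Odd).filter (fun c : ℕ => (c : ℤ) ∈ Ex)) : ℝ) ≤ #Ex := by exact_mod_cast h1
    have h3 : δ * C ≤ η * C := mul_le_mul_of_nonneg_right (by linarith) (Nat.cast_nonneg _)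
    linarith
  · intro c hc hcE
    have hcm := hc
    rw [mem_filter, mem_Icc] at hc
    obtain ⟨⟨hc1, hcC⟩, hodd⟩ := hc
    have hcE' : (c : ℤ) ∉ Ex := fun hh => hcE (mem_filter.2 ⟨hcm, hh⟩)
    obtain ⟨S, m1, m2, m3, m4⟩ := k3 (c : ℤ) (mem_Icc.2 ⟨by omega, by exact_mod_cast hcC⟩) hcE' (adm_three hodd)
    have he : eps 1 3 = 2 := by unfold eps; norm_num
    have hg : gcdProd 1 3 = 1 := by unfold gcdProd; simp
    refine ⟨S, m1, m2, ?_⟩
    have n1 := m4 0 N (Nat.zero_le _) le_rfl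
    rw [he, hg, mul_one] at n1
    have l1 := hx1 N (by omega) c (mem_Icc.2 ⟨hc1, hcC.trans hC2⟩) 0 N (Nat.zero_le _) le_rfl
    have es : ∑ m ∈ Ioc 0 N, 1 / Real.log (((1 : ℤ) : ℝ) * (m : ℝ) ^ 2 + ((3 : ℤ) : ℝ) * m + ((c : ℕ) : ℝ)) =
        ∑ m ∈ Ioc 0 N, 1 / Real.log (((1 : ℤ) : ℝ) * (m : ℝ) ^ 2 + ((3 : ℤ) : ℝ) * m + (((c : ℤ)) : ℝ)) := by
      refine sum_congr rfl fun m _ => ?_
      push_cast
      rfl
    rw [es] at l1
    obtain ⟨T0, hT0⟩ : ∃ T0 : ℝ, T0 = ∑ m ∈ Ioc 0 N, 1 / Real.log (((1 : ℤ) : ℝ) * (m : ℝ) ^ 2 + ((3 : ℤ) : ℝ) * m + (((c : ℤ)) : ℝ)) :=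
      ⟨_, rfl⟩
    rw [← hT0] at n1 l1
    have eX : 2 * S * (N : ℝ) / Real.log N = 2 * S * X := by rw [hX]; ring
    have eX' : δ * (2 * S * (N : ℝ) / Real.log N) = δ * (2 * S * X) := by rw [eX]
    rw [eX'] at n1
    have l2 : |T0 - X / 2| ≤ δ * X := by
      have e : ((N : ℝ) - ((0 : ℕ) : ℝ)) / (2 * Real.log N) = X / 2 := by
        rw [hX, Nat.cast_zero, sub_zero]
        field_simp
      rw [e, ← hX] at l1
      exact l1
    have c1 : #((Ioc 0 N).filter (fun m : ℕ => (fv 1 3 (c : ℤ) m).toNat.Prime)) =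
        #((Icc 1 N).filter (fun k : ℕ => (k ^ 2 + 3 * k + c).Prime)) := by
      rw [show Icc 1 N = Ioc 0 N from rfl]
      refine congrArg _ (filter_congr fun m _ => ?_)
      have : (fv 1 3 (c : ℤ) m).toNat = m ^ 2 + 3 * m + c := by
        unfold fv
        have : (1 : ℤ) * (m : ℤ) ^ 2 + 3 * m + c = ((m ^ 2 + 3 * m + c : ℕ) : ℤ) := by push_cast; ring
        rw [this, Int.toNat_natCast]
      rw [this]
    rw [c1] at n1
    have t := abs_le.1 l2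
    have hSX : 0 < S * X := mul_pos m1 hX0
    have q1 : S * (X / 2 - δ * X) ≤ S * T0 := mul_le_mul_of_nonneg_left (by linarith) m1.le
    have q2 : S * T0 ≤ S * (X / 2 + δ * X) := mul_le_mul_of_nonneg_left (by linarith) m1.le
    rw [le_div_iff₀ hπ0]
    rcases le_or_gt (1 / 10 - η) 0 with hs | hs
    · have : (1 / 10 - η) * S * π ≤ 0 :=
        mul_nonpos_of_nonpos_of_nonneg (mul_nonpos_of_nonpos_of_nonneg hs m1.le) hπ0.le
      exact this.trans (Nat.cast_nonneg _)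
    · have a1 : (1 / 10 - η) * S * π ≤ (1 / 10 - η) * S * ((1 + δ) * X) :=
        mul_le_mul_of_nonneg_left p2 (mul_nonneg hs.le m1.le)
      have a2 : (1 / 10 - η) * S * ((1 + δ) * X) ≤ (1 / 10 - 10 * δ) * (S * X) := by
        have : (1 / 10 - η) * (1 + δ) ≤ 1 / 10 - 10 * δ := by nlinarith
        calc (1 / 10 - η) * S * ((1 + δ) * X) = ((1 / 10 - η) * (1 + δ)) * (S * X) := by ring
          _ ≤ _ := mul_le_mul_of_nonneg_right this hSX.le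
      nlinarith

end Pool.Agent.H568.LB
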