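import Mathlib
import Pool.Graph.R_pool_sql_team_seeded_63374d34.N791.U.Both
import Pool.Agent.H568.LB.LoN
import Pool.Agent.H568.SumInt

/-!
The lower bound for `n² + a`, `a` of both signs, `N^(5/8+ε) ≤ A ≤ N`.
-/

set_option autoImplicit false

namespace Pool.Agent.H568.LB

open Finset Filter Topology Pool.Agent.N792 Pool.Agent.N791.U

/-- the final step for one `a` -/
lemma lo_one {a : ℤ} {N u v : ℕ} {θ θ0 η S : ℝ} (hθe : θ = η / 16) (hη : 0 < η) (hθ0 : 0 < θ0) (hS : θ0 ≤ S)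
    (ha : |a| ≤ N) (hN : 2 ≤ N) (hL1 : 1 ≤ Real.log N)
    (hu : 2 ≤ u) (huv : u ≤ v) (hvN : v ≤ N)
    (h1 : 1 / 10 * (S * ∑ m ∈ Ioc u v, 1 / Real.log ((m : ℝ) ^ 2 + a)) - θ * (S * N / Real.log N) ≤
      (#((Ioc u v).filter (fun m : ℕ => (fv 1 0 a m).toNat.Prime)) : ℝ))
    (h2 : |∑ m ∈ Ioc u v, 1 / Real.log ((m : ℝ) ^ 2 + a) - ((v : ℝ) - u) / (2 * Real.log N)| ≤ θ * (N / Real.log N))
    (h3 : ∫ t in (u : ℝ)..(v : ℝ), 1 / Real.log t ≤ ((v : ℝ) - u) / Real.log N + θ * (N / Real.log N))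
    (h4 : (N : ℝ) / Real.log N ≤ 2 * ∫ t in (2 : ℝ)..(N : ℝ), 1 / Real.log t)
    (h5 : (N : ℝ) ^ (1 / 2 : ℝ) ≤ θ * θ0 * (N / Real.log N)) :
    1 / 10 * (1 / 2 * S * ∫ t in (u : ℝ)..(v : ℝ), 1 / Real.log t) -
        η * (1 / 2 * S * ∫ t in (2 : ℝ)..(N : ℝ), 1 / Real.log t) ≤
      (#((Ioc u v).filter (fun n : ℕ => Nat.Prime ((n : ℤ) ^ 2 + a).natAbs)) : ℝ) := by
  have hθ : 0 < θ := by rw [hθe]; positivity
  have hS0 : 0 < S := hθ0.trans_le hS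
  have hNr : (2 : ℝ) ≤ N := by exact_mod_cast hN
  have hL0 : 0 < Real.log N := by linarith
  have h6 := nat_diff a (u := u) (v := v) ha
  -- lower bound for the integral
  have h7 : ((v : ℝ) - u) / Real.log N ≤ ∫ t in (u : ℝ)..(v : ℝ), 1 / Real.log t := by
    have hur : (2 : ℝ) ≤ u := by exact_mod_cast hu
    have huvr : (u : ℝ) ≤ v := by exact_mod_cast huv
    have hvr : (v : ℝ) ≤ N := by exact_mod_cast hvN
    have hint : IntervalIntegrable (fun t => 1 / Real.log t) MeasureTheory.volume u v := by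
      apply ContinuousOn.intervalIntegrable
      rw [Set.uIcc_of_le huvr]
      apply ContinuousOn.div continuousOn_const
      · apply Real.continuousOn_log.mono
        intro t ht
        rw [Set.mem_Icc] at ht
        simp only [Set.mem_compl_iff, Set.mem_singleton_iff]
        linarith
      · intro t ht
        rw [Set.mem_Icc] at ht
        exact (Real.log_pos (by linarith)).ne'
    have h := intervalIntegral.integral_mono_on huvr (intervalIntegrable_const (c := 1 / Real.log N)) hint (by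
      intro t ht
      rw [Set.mem_Icc] at ht
      exact one_div_le_one_div_of_le (Real.log_pos (by linarith)) (Real.log_le_log (by linarith) (by linarith)))
    rw [intervalIntegral.integral_const, smul_eq_mul] at h
    calc ((v : ℝ) - u) / Real.log N = ((v : ℝ) - u) * (1 / Real.log N) := by ring
      _ ≤ _ := h
  obtain ⟨X, hX⟩ : ∃ X : ℝ, X = (N : ℝ) / Real.log N := ⟨_, rfl⟩
  obtain ⟨D, hD⟩ : ∃ D : ℝ, D = ((v : ℝ) - u) / Real.log N := ⟨_, rfl⟩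
  obtain ⟨I, hI⟩ : ∃ I : ℝ, I = ∫ t in (2 : ℝ)..(N : ℝ), 1 / Real.log t := ⟨_, rfl⟩
  obtain ⟨I1, hI1⟩ : ∃ I1 : ℝ, I1 = ∫ t in (u : ℝ)..(v : ℝ), 1 / Real.log t := ⟨_, rfl⟩
  obtain ⟨Sg, hSg⟩ : ∃ Sg : ℝ, Sg = ∑ m ∈ Ioc u v, 1 / Real.log ((m : ℝ) ^ 2 + a) := ⟨_, rfl⟩
  have hX0 : 0 < X := by rw [hX]; positivity
  have e1 : ((v : ℝ) - u) / (2 * Real.log N) = D / 2 := by rw [hD]; field_simp
  have e2 : S * N / Real.log N = S * X := by rw [hX]; ring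
  rw [← hSg, e2] at h1
  rw [← hSg, e1, ← hX] at h2
  rw [← hI1, ← hD, ← hX] at h3
  rw [← hX, ← hI] at h4
  rw [← hX] at h5
  rw [← hD, ← hI1] at h7
  rw [← hI1, ← hI]
  have t6 := abs_le.1 h6
  have t2 := abs_le.1 h2
  have q1 : S * (D / 2 - θ * X) ≤ S * Sg := mul_le_mul_of_nonneg_left (by linarith) hS0.le
  have q1' : S * Sg ≤ S * (D / 2 + θ * X) := mul_le_mul_of_nonneg_left (by linarith) hS0.le
  have q2 : S * I1 ≤ S * (D + θ * X) := mul_le_mul_of_nonneg_left h3 hS0.le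
  have q2' : S * D ≤ S * I1 := mul_le_mul_of_nonneg_left h7 hS0.le
  have q3 : θ * θ0 * X ≤ θ * S * X := by gcongr
  have q6 : θ * S * X ≤ θ * S * (2 * I) := by gcongr
  have q7 : θ * S * (2 * I) = η / 8 * (S * I) := by rw [hθe]; ring
  have q8 : 0 ≤ η * (S * I) := by
    have : 0 ≤ I := by linarith
    positivity
  nlinarith [t6.1, t6.2]

/-- **The lower bound for `P_a`, for almost all `|a| ≤ A`, `N^(5/8+ε) ≤ A ≤ N`.** -/
theorem lo_two (ε η : ℝ) (hε : 0 < ε) (hη : 0 < η) : ∃ N0 : ℕ, ∀ N : ℕ, N0 ≤ N → ∀ A : ℕ,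
    (N : ℝ) ^ (5 / 8 + ε) ≤ A → A ≤ N → ∃ Ex ⊆ Icc (-(A : ℤ)) A, (#Ex : ℝ) ≤ η * A ∧
      ∀ a ∈ Icc (-(A : ℤ)) A, a ∉ Ex → ¬ IsSquare (-a) →
      ∃ h : ℝ, 0 < h ∧ Tendsto (fun X : ℕ => ∏ w ∈ (range (X + 1)).filter (fun w => Nat.Prime w ∧ w ≠ 2),
          (1 - (jacobiSym (-a) w : ℝ) / ((w : ℝ) - 1))) atTop (𝓝 h) ∧
        ∀ u v : ℕ, 2 ≤ u → u ≤ v → v ≤ N →
          1 / 10 * (1 / 2 * h * ∫ t in (u : ℝ)..(v : ℝ), 1 / Real.log t) -
              η * (1 / 2 * h * ∫ t in (2 : ℝ)..(N : ℝ), 1 / Real.log t) ≤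
            (#((Ioc u v).filter (fun n : ℕ => Nat.Prime ((n : ℤ) ^ 2 + a).natAbs)) : ℝ) := by
  classical
  obtain ⟨ε0, hε0⟩ : ∃ ε0 : ℝ, ε0 = min ε (1 / 6) := ⟨_, rfl⟩
  have w1 : 0 < ε0 := by rw [hε0]; exact lt_min hε (by norm_num)
  have w2 : ε0 ≤ ε := by rw [hε0]; exact min_le_left _ _
  have w3 : ε0 ≤ 1 / 6 := by rw [hε0]; exact min_le_right _ _
  obtain ⟨θ, hθ⟩ : ∃ θ : ℝ, θ = η / 16 := ⟨_, rfl⟩
  have hθ0 : 0 < θ := by rw [hθ]; positivity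
  obtain ⟨θ1, hθ1, x1, hx1⟩ := con58 1 one_pos 1 le_rfl ε0 θ w1 hθ0
  obtain ⟨θ2, hθ2, x2, hx2⟩ := neg_tLk 1 one_pos 0 (5 / 8) (1 / 10) (by norm_num) (by norm_num) (by norm_num)
    (fun Λ hΛ ε η hε hη => con58 1 one_pos Λ hΛ ε η hε hη) ε0 θ w1 (by linarith) hθ0
  obtain ⟨x3, hx3⟩ := li_asym 1 one_pos 0 θ hθ0
  obtain ⟨x4, hx4⟩ := li_neg θ hθ0
  obtain ⟨x5, hx5⟩ := eventually_atTop.1 (li_upper2 θ hθ0)
  obtain ⟨x6, hx6⟩ := eventually_atTop.1 (Shp.log_ge 1)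
  obtain ⟨x7, hx7⟩ := eventually_atTop.1 li_lower
  obtain ⟨x8, hx8⟩ := eventually_atTop.1 (Shp.log_pow_le 1 (1 / (θ * min θ1 θ2)) (1 / 2) (by norm_num))
  refine ⟨x1 + x2 + x3 + x4 + x5 + x6 + x7 + x8 + 2, fun N hN A hA1 hA2 => ?_⟩
  have hNr : (2 : ℝ) ≤ N := by exact_mod_cast (by omega : 2 ≤ N)
  have hA1' : (N : ℝ) ^ (5 / 8 + ε0) ≤ A :=
    (Real.rpow_le_rpow_of_exponent_le (by linarith) (by linarith)).trans hA1
  have hA0 : (0 : ℝ) ≤ A := Nat.cast_nonneg _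
  obtain ⟨E1, a1, a2, a3⟩ := hx1 N (by omega) 0 A (by simp) hA1' hA2
  obtain ⟨E2, b1, b2, b3⟩ := hx2 N (by omega) A hA1' hA2
  have k5 := hx5 N (by omega)
  have k6 := hx6 N (by omega)
  have k7 := hx7 N (by omega)
  have k8 := hx8 N (by omega)
  rw [pow_one] at k8
  have hL0 : 0 < Real.log N := by linarith
  have hmin : 0 < min θ1 θ2 := lt_min hθ1 hθ2
  have k9 : (N : ℝ) ^ (1 / 2 : ℝ) ≤ θ * min θ1 θ2 * (N / Real.log N) := by
    rw [mul_div_assoc', le_div_iff₀ hL0]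
    have h8 : (N : ℝ) ^ (1 / 2 : ℝ) * (N : ℝ) ^ (1 / 2 : ℝ) = N := by
      rw [← Real.rpow_add (by linarith)]; norm_num
    calc (N : ℝ) ^ (1 / 2 : ℝ) * Real.log N =
        (θ * min θ1 θ2) * ((N : ℝ) ^ (1 / 2 : ℝ) * (1 / (θ * min θ1 θ2) * Real.log N)) := by field_simp
      _ ≤ (θ * min θ1 θ2) * ((N : ℝ) ^ (1 / 2 : ℝ) * (N : ℝ) ^ (1 / 2 : ℝ)) := by gcongr
      _ = _ := by rw [h8]
  have he : eps 1 0 = 1 := by unfold eps; norm_num
  have hg : gcdProd 1 0 = 1 := by unfold gcdProd; simp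
  refine ⟨E1.image (fun c : ℕ => (c : ℤ)) ∪ E2.image (fun c : ℕ => -(c : ℤ)), ?_, ?_, ?_⟩
  · intro a ha
    rw [mem_union, mem_image, mem_image] at ha
    rw [mem_Icc]
    rcases ha with ⟨c, hc, rfl⟩ | ⟨c, hc, rfl⟩
    · have := mem_Icc.1 (a1 hc)
      omega
    · have := mem_Icc.1 (b1 hc)
      omega
  · have h1 := card_union_le (E1.image (fun c : ℕ => (c : ℤ))) (E2.image (fun c : ℕ => -(c : ℤ)))
    have h2 : #(E1.image (fun c : ℕ => (c : ℤ))) ≤ #E1 := card_image_le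
    have h3 : #(E2.image (fun c : ℕ => -(c : ℤ))) ≤ #E2 := card_image_le
    have h4 : (#(E1.image (fun c : ℕ => (c : ℤ)) ∪ E2.image (fun c : ℕ => -(c : ℤ))) : ℝ) ≤
        #E1 + #E2 := by
      exact_mod_cast (by omega)
    have h5 : θ * A ≤ η / 4 * A := mul_le_mul_of_nonneg_right (by rw [hθ]; linarith) hA0
    linarith
  · intro a ha haE hsq
    rw [mem_union, not_or] at haE
    have haI := mem_Icc.1 ha
    have habs : |a| ≤ (N : ℤ) := abs_le.2 ⟨by omega, by omega⟩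
    have hadm := adm_neg a hsq
    rcases lt_trichotomy a 0 with hneg | h0 | hpos
    · -- negative
      obtain ⟨k, hk⟩ := Int.eq_ofNat_of_zero_le (by omega : 0 ≤ -a)
      have hak : a = -(k : ℤ) := by omega
      subst hak
      have hkE : k ∉ E2 := fun h => haE.2 (mem_image.2 ⟨k, h, rfl⟩)
      obtain ⟨S, m1, m2, m3, m4⟩ := b3 k (mem_Icc.2 ⟨by omega, by omega⟩) hkE hadm
      rw [he, hg, one_mul, mul_one] at m3 m4
      have hSt' : Tendsto (fun X : ℕ => ∏ w ∈ (range (X + 1)).filter (fun w => Nat.Prime w ∧ w ≠ 2),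
          (1 - (jacobiSym (-(-(k : ℤ))) w : ℝ) / ((w : ℝ) - 1))) atTop (𝓝 S) := by
        refine m2.congr fun X => ?_
        exact partialC_one _ X
      refine ⟨S, m1, hSt', fun u v hu huv hvN => ?_⟩
      have c1 := m4 u v huv hvN
      have c2 := hx4 N (by omega) k (mem_Icc.2 ⟨by omega, by omega⟩) u v huv hvN
      have e : ∑ m ∈ Ioc u v, 1 / Real.log (((1 : ℤ) : ℝ) * m ^ 2 + ((0 : ℤ) : ℝ) * m + ((-(k : ℤ) : ℤ) : ℝ)) =
          ∑ m ∈ Ioc u v, 1 / Real.log ((m : ℝ) ^ 2 + ((-(k : ℤ) : ℤ) : ℝ)) := by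
        refine sum_congr rfl fun m _ => ?_
        push_cast
        ring_nf
      rw [e] at c1
      refine lo_one (θ := θ) (θ0 := min θ1 θ2) (S := S) hθ hη hmin ((min_le_right _ _).trans m3) habs (by omega) k6 hu huv hvN
        c1 ?_ (k5 u v hu huv hvN) k7 k9
      have e : ∑ m ∈ Ioc u v, 1 / Real.log ((m : ℝ) ^ 2 - (k : ℝ)) =
          ∑ m ∈ Ioc u v, 1 / Real.log ((m : ℝ) ^ 2 + ((-(k : ℤ) : ℤ) : ℝ)) := by
        refine sum_congr rfl fun m _ => ?_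
        push_cast
        ring_nf
      rw [e] at c2
      exact c2
    · exfalso
      apply hsq
      rw [h0]
      exact ⟨0, by norm_num⟩
    · obtain ⟨c, hc⟩ := Int.eq_ofNat_of_zero_le hpos.le
      subst hc
      have hcE : c ∉ E1 := fun h => haE.1 (mem_image.2 ⟨c, h, rfl⟩)
      obtain ⟨S, m1, m2, m3, m4⟩ := a3 c (mem_Icc.2 ⟨by omega, by omega⟩) hcE hadm
      rw [he, hg, one_mul, mul_one] at m3 m4
      have hSt' : Tendsto (fun X : ℕ => ∏ w ∈ (range (X + 1)).filter (fun w => Nat.Prime w ∧ w ≠ 2),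
          (1 - (jacobiSym (-(c : ℤ)) w : ℝ) / ((w : ℝ) - 1))) atTop (𝓝 S) := by
        refine m2.congr fun X => ?_
        exact partialC_one _ X
      refine ⟨S, m1, hSt', fun u v hu huv hvN => ?_⟩
      have c1 := m4 u v huv hvN
      have c2 := hx3 N (by omega) c (mem_Icc.2 ⟨by omega, by omega⟩) u v huv hvN
      have e : ∑ m ∈ Ioc u v, 1 / Real.log (((1 : ℤ) : ℝ) * m ^ 2 + ((0 : ℤ) : ℝ) * m + (c : ℝ)) =
          ∑ m ∈ Ioc u v, 1 / Real.log ((m : ℝ) ^ 2 + (((c : ℕ) : ℤ) : ℝ)) := by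
        refine sum_congr rfl fun m _ => ?_
        push_cast
        ring_nf
      rw [e] at c1 c2
      exact lo_one (θ := θ) (θ0 := min θ1 θ2) (S := S) hθ hη hmin ((min_le_left _ _).trans m3) habs (by omega) k6 hu huv hvN
        c1 c2 (k5 u v hu huv hvN) k7 k9

end Pool.Agent.H568.LB
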